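import Pool.Agent.Lib_helper87.OCN.P1e
import Pool.Agent.Lib_helper16.OCN.Exit

/-!
# MP_aeb124_co: the end of phase 1 with exact heights on the right side
-/

set_option autoImplicit false

namespace Pool.Agent.OCN

variable {V : Type} {r : V → V → Prop}

/-- the end of phase 1 -/
theorem P1e.exit {n o y N x M : ℕ} (h : P1e r n (o + 1) y N x M) :
    ∃ (K : Finset V) (R : Rep V) (s a b : ℤ),
      Flat r K R s a b (o + 1) (y + N) (x + M) y x ∧
      (∀ p, s ≤ p → p ≤ b → R.N (Ts K R s) p = x) ∧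
      (∀ p, p < s → (∃ z ∈ K, R.Cr z p) → o + 1 + y ≤ R.N K p) ∧ K.card = n := by
  classical
  obtain ⟨K, R, g, a, b, h, hex, hn⟩ := h
  have hm := h.d.st.hg.mono
  obtain ⟨z0, hz0, hz1, hz2⟩ := h.d.exists_open (by omega)
  obtain ⟨ha, hb⟩ := h.fl z0 hz0 hz1 hz2 (fun h => h)
  have ga : g a = 1 := by rw [← ha]; exact hz1
  have gb : g b = 2 := by rw [← hb]; exact hz2
  obtain ⟨s, hs1, hs2, hs3, hs4⟩ := exists_first (g := g) (ρ := 2) (a := a) (p := b)
    (by omega) gb hm
  have hlt : ∀ p, p < s → g p ≤ 1 := fun p hp => by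
    have := hm (show p ≤ s - 1 by omega)
    omega
  have hge : ∀ p, s ≤ p → 2 ≤ g p := fun p hp => by
    have := hm hp
    omega
  have hg1 : ∀ p, a ≤ p → p < s → g p = 1 := fun p h1 h2 => by
    have := hm h1
    have := hlt p h2
    omega
  have hg2 : ∀ p, s ≤ p → p ≤ b → g p = 2 := fun p h1 h2 => by
    have := hm h2
    have := hge p h1
    omega
  have tZ : ∀ z ∈ K, ((R.lo z < s ∧ s ≤ R.hi z) ↔ (g (R.lo z) = 1 ∧ g (R.hi z) = 2)) := by
    intro z hz
    constructor
    · rintro ⟨h1, h2⟩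
      have e1 := hlt _ h1
      have e2 := hge _ h2
      rcases h.d.ty z hz with h3 | h3 | h3 <;> omega
    · rintro ⟨h1, h2⟩
      constructor
      · by_contra h3
        have := hge (R.lo z) (by omega)
        omega
      · by_contra h3
        have := hlt (R.hi z) (by omega)
        omega
  have tL : ∀ z ∈ K, (R.hi z < s ↔ (g (R.lo z) = 1 ∧ g (R.hi z) = 1)) := by
    intro z hz
    constructor
    · intro h1
      have e1 := hlt _ h1
      rcases h.d.ty z hz with h3 | h3 | h3 <;> omega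
    · rintro ⟨h1, h2⟩
      by_contra h3
      have := hge (R.hi z) (by omega)
      omega
  have tT : ∀ z ∈ K, (s ≤ R.lo z ↔ (g (R.lo z) = 2 ∧ g (R.hi z) = 2)) := by
    intro z hz
    constructor
    · intro h1
      have e1 := hge _ h1
      rcases h.d.ty z hz with h3 | h3 | h3 <;> omega
    · rintro ⟨h1, h2⟩
      by_contra h3
      have := hlt (R.lo z) (by omega)
      omega
  have hZc : (Zs K R s).card = o + 1 := by
    rw [← h.d.co]
    unfold Zs
    exact card_filter_eq_cn fun z hz => tZ z hz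
  have hLc : (Ls K R s).card = y + N := by
    rw [← h.d.cl]
    unfold Ls
    exact card_filter_eq_cn fun z hz => tL z hz
  have hTc : (Ts K R s).card = x + M := by
    rw [← h.d.cr]
    unfold Ts
    exact card_filter_eq_cn fun z hz => tT z hz
  have hNsum : ∀ p, s ≤ p → p ≤ b → R.N K p = (Zs K R s).card + R.N (Ts K R s) p := by
    intro p hp hpb
    unfold Rep.N
    rw [← Finset.card_union_of_disjoint]
    · congr 1
      ext w
      rw [Finset.mem_filter, Finset.mem_union, Finset.mem_filter, mem_Zs, mem_Ts]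
      constructor
      · rintro ⟨h1, h2, h3⟩
        by_cases h4 : s ≤ R.lo w
        · exact Or.inr ⟨⟨h1, h4⟩, h2, h3⟩
        · exact Or.inl ⟨h1, by omega, by omega⟩
      · rintro (⟨h1, h2, h3⟩ | h1)
        · obtain ⟨h4, h5⟩ := h.fl w h1 ((tZ w h1).1 ⟨h2, h3⟩).1 ((tZ w h1).1 ⟨h2, h3⟩).2
            (fun h => h)
          exact ⟨h1, by omega, by omega⟩
        · exact ⟨h1.1.1, h1.2⟩
    · rw [Finset.disjoint_left]
      intro w hw hw'
      rw [mem_Zs] at hw
      rw [Finset.mem_filter, mem_Ts] at hw'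
      omega
  have hTx : ∀ p, s ≤ p → p ≤ b → R.N (Ts K R s) p = x := by
    intro p hp hpb
    have e1 := h.d.st.hg.ht p ⟨z0, hz0, by rw [ha]; omega, by rw [hb]; exact hpb⟩
    rw [hg2 p hp hpb] at e1
    have e2 : H1 (o + 1) y x 2 = o + 1 + x := by
      unfold H1
      rw [if_neg (by norm_num), if_pos rfl]
    rw [e2] at e1
    have e3 := hex p (hg2 p hp hpb) hpb
    have e4 := hNsum p hp hpb
    omega
  refine ⟨K, R, s, a, b, ⟨h.d.st.loc, hZc, hLc, hTc, hs1, hs2, ?_, h.al, ?_, ?_, ?_, ?_⟩, hTx,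
    ?_, hn⟩
  · intro z hz
    obtain ⟨h1, h2⟩ := mem_Zs.1 hz
    obtain ⟨h3, h4⟩ := (tZ z h1).1 h2
    exact h.fl z h1 h3 h4 (fun h => h)
  · exact fun p hp hpb => (hTx p hp hpb).ge
  · intro p hp hps
    have e1 := h.d.st.hg.ht p ⟨z0, hz0, by rw [ha]; exact hp, by rw [hb]; omega⟩
    rw [hg1 p hp hps] at e1
    have e2 : H1 (o + 1) y x 1 = o + 1 + y := by
      unfold H1
      rw [if_pos rfl]
    rw [e2] at e1
    have e3 : R.N K p ≤ (Zs K R s).card + R.N (Ls K R s) p := by
      unfold Rep.N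
      refine le_trans (Finset.card_le_card ?_) (Finset.card_union_le _ _)
      intro w hw
      rw [Finset.mem_filter] at hw
      rw [Finset.mem_union, Finset.mem_filter, mem_Zs, mem_Ls]
      obtain ⟨h1, h2, h3⟩ := hw
      by_cases h4 : R.hi w < s
      · exact Or.inr ⟨⟨h1, h4⟩, h2, h3⟩
      · exact Or.inl ⟨h1, by omega, by omega⟩
    omega
  · intro u hu v hv h1 h2
    have e1 := h.al u hu
    have e2 := R.le u
    have e3 := h.d.st.hg.ul (R.lo u) (by
      unfold B1
      exact ⟨hg2 _ (by omega) (by omega), hg2 _ (by omega) (by omega)⟩)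
    rw [Finset.card_le_one] at e3
    exact e3 u (Finset.mem_filter.2 ⟨hu, rfl⟩) v (Finset.mem_filter.2 ⟨hv, h2.symm⟩)
  · intro u hu v hv h1 h2
    unfold Rep.dual at h1 h2
    simp only at h1 h2
    have e1 := h.al u hu
    have e2 := R.le u
    have e3 := h.d.st.hg.uh (R.hi u) (by
      unfold A1
      exact ⟨hg1 _ (by omega) (by omega), hg1 _ (by omega) (by omega)⟩)
    rw [Finset.card_le_one] at e3
    exact e3 u (Finset.mem_filter.2 ⟨hu, rfl⟩) v (Finset.mem_filter.2 ⟨hv, by omega⟩)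
  · rintro p hp ⟨z, hz, hc1, hc2⟩
    have e0 := (h.al z hz).1
    have e1 := h.d.st.hg.ht p ⟨z0, hz0, by rw [ha]; omega, by rw [hb]; omega⟩
    rw [hg1 p (by omega) hp] at e1
    have e2 : H1 (o + 1) y x 1 = o + 1 + y := by
      unfold H1
      rw [if_pos rfl]
    rwa [e2] at e1

/-- the left heights in total form -/
theorem P1e.exit' {B W n o y N x M : ℕ} (h : P1e r n (o + 1) y N x M) (hW : n ≤ B + y + W) :
    ∃ (K : Finset V) (R : Rep V) (s a b : ℤ),
      Flat r K R s a b (o + 1) (y + N) (x + M) y x ∧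
      (∀ p, s ≤ p → p ≤ b → R.N (Ts K R s) p = x) ∧
      (∀ p, p < s → 2 ≤ R.N K p → K.card + (Zs K R s).card ≤ B + R.N K p + W) ∧ K.card = n := by
  obtain ⟨K, R, s, a, b, h1, h2, h3, h4⟩ := h.exit
  refine ⟨K, R, s, a, b, h1, h2, fun p hp hN => ?_, h4⟩
  have h5 := h3 p hp (Rep.N_pos (by omega))
  have h6 := h1.zc
  omega

end Pool.Agent.OCN
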