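import Pool.Agent.Lib_helper87.OCN.P1eX
import Pool.Agent.Lib_helper47.OCN.X0d

/-!
# MP_aeb124_co: from phase 1 to the class X0
-/

set_option autoImplicit false

namespace Pool.Agent.OCN

variable {V : Type}

section
variable {r : V → V → Prop} {B : ℕ} {K : Finset V} {R : Rep V} {s b : ℤ} {W e x M y : ℕ}

/-- the left elements: those which end at `s - 1` and those with an own end -/
theorem X0E_card (K : Finset V) (R : Rep V) (s : ℤ) [DecidableEq V] :
    (K.filter fun z => R.hi z = s - 1).card + ua K R.dual (1 - s) = (Ls K R s).card := by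
  classical
  unfold ua
  rw [← Finset.card_union_of_disjoint]
  · congr 1
    ext w
    rw [Finset.mem_union, Finset.mem_filter, Finset.mem_filter, mem_Ls]
    have e : R.dual.lo w = -R.hi w := rfl
    rw [e]
    constructor
    · rintro (h1 | h1)
      · exact ⟨h1.1, by omega⟩
      · exact ⟨h1.1, by omega⟩
    · rintro ⟨h1, h2⟩
      by_cases h3 : R.hi w = s - 1
      · exact Or.inl ⟨h1, h3⟩
      · exact Or.inr ⟨h1, by omega⟩
  · rw [Finset.disjoint_left]
    intro w hw hw'
    rw [Finset.mem_filter] at hw hw'
    have e : R.dual.lo w = -R.hi w := rfl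
    rw [e] at hw'
    omega

/-- a surplus long element of the left part gets an own end -/
theorem X0.convL (h : X0 B K R s s b W e x M) (hr : Loc r K R) (hy : K.card ≤ B + y + W)
    (hlt : ua K R.dual (1 - s) + y < (Ls K R s).card) :
    ∃ R' : Rep V, Loc r K R' ∧ X0 B K R' s s b W e x M ∧
      ua K R'.dual (1 - s) = ua K R.dual (1 - s) + 1 ∧ Zs K R' s = Zs K R s ∧
      Ls K R' s = Ls K R s := by
  classical
  have hXc := X0E_card K R s
  obtain ⟨w, hw⟩ := Finset.card_pos.1 (show 0 < (K.filter fun z => R.hi z = s - 1).card by omega)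
  obtain ⟨hwK, hws⟩ := Finset.mem_filter.1 hw
  obtain ⟨R', hR'⟩ : ∃ R' : Rep V, R' = { lo := fun z => if R.lo z < s then R.lo z - 1 else R.lo z
                                          hi := fun z => if s ≤ R.hi z then R.hi z else
                                            if R.hi z = s - 1 ∧ z ≠ w then s - 1
                                            else R.hi z - 1
                                          le := fun z => by
                                            have := R.le z
                                            split_ifs <;> omega } := ⟨_, rfl⟩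
  have hlo : ∀ z, (R.lo z < s ∧ R'.lo z = R.lo z - 1) ∨ (s ≤ R.lo z ∧ R'.lo z = R.lo z) := by
    intro z
    rw [hR']
    dsimp only
    split_ifs <;> omega
  have hhi : ∀ z, (s ≤ R.hi z ∧ R'.hi z = R.hi z) ∨ (R.hi z = s - 1 ∧ z ≠ w ∧ R'.hi z = s - 1) ∨
      (R.hi z ≤ s - 1 ∧ (R.hi z = s - 1 → z = w) ∧ R'.hi z = R.hi z - 1) := by
    intro z
    rw [hR']
    dsimp only
    by_cases h1 : s ≤ R.hi z
    · rw [if_pos h1]
      exact Or.inl ⟨h1, rfl⟩
    · rw [if_neg h1]
      by_cases h2 : R.hi z = s - 1 ∧ z ≠ w
      · rw [if_pos h2]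
        exact Or.inr (Or.inl ⟨h2.1, h2.2, rfl⟩)
      · rw [if_neg h2]
        refine Or.inr (Or.inr ⟨by omega, fun h3 => ?_, rfl⟩)
        by_contra h4
        exact h2 ⟨h3, h4⟩
  have hww : R'.hi w = s - 2 := by
    rcases hhi w with h1 | h1 | h1
    · omega
    · exact absurd rfl h1.2.1
    · omega
  have hrel : ∀ p q, R'.rel p q ↔ R.rel p q := by
    intro p q
    have h1 := hlo q
    have h2 := hhi p
    unfold Rep.rel
    omega
  have hZ : Zs K R' s = Zs K R s := by
    ext z
    rw [mem_Zs, mem_Zs]
    have h1 := hlo z
    have h2 := hhi z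
    constructor <;> rintro ⟨h3, h4, h5⟩ <;> refine ⟨h3, ?_, ?_⟩ <;> omega
  have hL : Ls K R' s = Ls K R s := by
    ext z
    rw [mem_Ls, mem_Ls]
    have h2 := hhi z
    constructor <;> rintro ⟨h3, h4⟩ <;> refine ⟨h3, ?_⟩ <;> omega
  have hT : Ts K R' s = Ts K R s := by
    ext z
    rw [mem_Ts, mem_Ts]
    have h1 := hlo z
    constructor <;> rintro ⟨h3, h4⟩ <;> refine ⟨h3, ?_⟩ <;> omega
  refine ⟨R', ⟨hr.so, hr.iso, fun u hu v hv => ?_⟩, ?_, ?_, hZ, hL⟩
  · rw [hr.eq u hu v hv, hrel]
  · refine ⟨⟨le_rfl, ?_, ?_, by rw [hL]; exact h.lf.gN, ?_, ?_⟩, by rw [hL]; exact h.ge, h.sb,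
      ?_, ?_, ?_, ?_, by rw [hT]; exact h.tc⟩
    · intro z _
      have := R'.le z
      omega
    · intro u _ v _ _ h1 h2
      have := R'.le u
      omega
    · -- the left heights
      intro p hp h2
      rw [hZ]
      rcases lt_or_eq_of_le (show p ≤ s - 1 by omega) with h3 | h3
      · have h4 : R'.N K p = R.N K (p + 1) := by
          unfold Rep.N
          refine congrArg Finset.card (Finset.filter_congr fun z _ => ?_)
          have h5 := hlo z
          have h6 := hhi z
          unfold Rep.Cr
          omega
        rw [h4] at h2 ⊢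
        exact h.lf.nL (p + 1) (by omega) h2
      · have h4 : (Zs K R s).card + ((K.filter fun z => R.hi z = s - 1).erase w).card ≤
            R'.N K p := by
          unfold Rep.N
          rw [← Finset.card_union_of_disjoint]
          · refine Finset.card_le_card fun z hz => ?_
            rw [Finset.mem_union, mem_Zs, Finset.mem_erase, Finset.mem_filter] at hz
            rw [Finset.mem_filter]
            have h5 := hlo z
            have h6 := hhi z
            have h7 := R.le z
            rcases hz with hz | hz
            · refine ⟨hz.1, ?_⟩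
              unfold Rep.Cr
              omega
            · refine ⟨hz.2.1, ?_⟩
              have h8 := hz.1
              have h9 := hz.2.2
              unfold Rep.Cr
              rcases h6 with h6 | h6 | h6
              · omega
              · omega
              · exact absurd (h6.2.1 h9) h8
          · rw [Finset.disjoint_left]
            intro z hz hz'
            rw [mem_Zs] at hz
            rw [Finset.mem_erase, Finset.mem_filter] at hz'
            omega
        rw [Finset.card_erase_of_mem hw] at h4
        omega
    · intro u hu v hv h1 h2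
      have e1 : ∀ z, R'.dual.lo z = -R'.hi z := fun _ => rfl
      have e2 : ∀ z, R.dual.lo z = -R.hi z := fun _ => rfl
      rw [e1] at h1
      rw [e1, e1] at h2
      have h3 := hhi u
      have h4 := hhi v
      by_cases hu' : R.hi u = s - 1
      · have e3 : u = w := by
          rcases h3 with h3 | h3 | h3
          · omega
          · omega
          · exact h3.2.1 hu'
        have e4 : R.hi v = s - 1 := by
          rcases h3 with h3 | h3 | h3 <;> rcases h4 with h4 | h4 | h4 <;> omega
        have e5 : v = w := by
          rcases h4 with h4 | h4 | h4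
          · omega
          · rcases h3 with h3 | h3 | h3 <;> omega
          · exact h4.2.1 e4
        rw [e3, e5]
      · refine h.lf.il u hu v hv ?_ ?_
        · rw [e2]
          rcases h3 with h3 | h3 | h3 <;> omega
        · rw [e2, e2]
          rcases h3 with h3 | h3 | h3 <;> rcases h4 with h4 | h4 | h4 <;> omega
    · intro z hz
      rw [hZ] at hz
      have h1 := h.zb z hz
      have h2 := hhi z
      have h3 := (mem_Zs.1 hz).2.2
      omega
    · intro z hz
      have h1 := h.al z hz
      have h2 := hhi z
      omega
    · intro p h1 h2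
      rw [← h.ex p h1 h2]
      unfold Rep.N
      rw [hT]
      refine congrArg Finset.card (Finset.filter_congr fun z hz => ?_)
      have h3 := (mem_Ts.1 hz).2
      have h4 := R.le z
      have h5 := hlo z
      have h6 := hhi z
      unfold Rep.Cr
      omega
    · intro u hu v hv h1 h2
      have h3 := hlo u
      have h4 := hlo v
      exact h.ir u hu v hv (by omega) (by omega)
  · unfold ua
    have h1 : (K.filter fun z => 1 - s < R'.dual.lo z) =
        insert w (K.filter fun z => 1 - s < R.dual.lo z) := by
      ext z
      rw [Finset.mem_insert, Finset.mem_filter, Finset.mem_filter]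
      have e1 : ∀ z, R'.dual.lo z = -R'.hi z := fun _ => rfl
      have e2 : ∀ z, R.dual.lo z = -R.hi z := fun _ => rfl
      rw [e1, e2]
      have h3 := hhi z
      constructor
      · rintro ⟨h4, h5⟩
        by_cases hzw : z = w
        · exact Or.inl hzw
        · refine Or.inr ⟨h4, ?_⟩
          rcases h3 with h3 | h3 | h3
          · omega
          · omega
          · by_contra h6
            exact hzw (h3.2.1 (by omega))
      · rintro (rfl | ⟨h4, h5⟩)
        · exact ⟨hwK, by omega⟩
        · refine ⟨h4, ?_⟩
          rcases h3 with h3 | h3 | h3 <;> omega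
    rw [h1, Finset.card_insert_of_notMem]
    rw [Finset.mem_filter]
    have e2 : R.dual.lo w = -R.hi w := rfl
    rw [e2]
    omega

/-- `N` elements of the left part get own ends -/
theorem X0.convsL (N : ℕ) (h : X0 B K R s s b W e x M) (hr : Loc r K R)
    (hy : K.card ≤ B + y + W) (hN : N + y ≤ (Ls K R s).card) :
    ∃ R' : Rep V, Loc r K R' ∧ X0 B K R' s s b W e x M ∧ N ≤ ua K R'.dual (1 - s) ∧
      Zs K R' s = Zs K R s := by
  obtain ⟨k, hk⟩ : ∃ k, k = N - ua K R.dual (1 - s) := ⟨_, rfl⟩
  induction k generalizing R with
  | zero => exact ⟨R, hr, h, by omega, rfl⟩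
  | succ k ih =>
    obtain ⟨R1, h1, h2, h3, h4, h5⟩ := h.convL hr hy (by omega)
    obtain ⟨R2, g1, g2, g3, g4⟩ := ih h2 h1 (by rw [h5]; exact hN) (by omega)
    exact ⟨R2, g1, g2, g3, g4.trans h4⟩

end

/-- the positions at the end of phase 1 with a left part which is too small -/
theorem P1e.x0 {r : V → V → Prop} {B W n o y N x M e o0 : ℕ} (h : P1e r n (o + 1) y N x M)
    (hW : n ≤ B + y + W) (hn : n = B + (y + N) + e) (ho : o + 1 = o0 + e) :
    r ∈ X0C B W N x M n o0 := by
  obtain ⟨K, R, s, a, b, hF, hex, hnL, hK⟩ := h.exit' hW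
  have h0 : X0 B K R s s b W e x M := by
    refine ⟨⟨le_rfl, ?_, ?_, by rw [hF.lc]; omega, ?_, hF.il⟩, by rw [hF.lc]; omega, hF.sb, ?_, ?_,
      hex, hF.ir, hF.tc⟩
    · intro z _
      have := R.le z
      omega
    · intro u _ v _ _ h1 h2
      have := R.le u
      omega
    · intro p hp h2
      have := hnL p hp h2
      omega
    · exact fun z hz => (hF.z z hz).2
    · exact fun z hz => (hF.al z hz).2
  obtain ⟨R', g1, g2, g3, g4⟩ := h0.convsL N hF.loc (y := y) (by omega) (by rw [hF.lc]; omega)
  exact ⟨K, R', s, s, b, e, g1, g2, hK, g3, by rw [g4, hF.zc]; omega⟩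

end Pool.Agent.OCN
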