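import Pool.Agent.Lib_helper87.OCN.P1e
import Pool.Agent.Lib_helper29.OCN.CellsV2

/-!
# MP_aeb124_co: phase 1 with exact heights from a list of cells, and the last step
-/

set_option autoImplicit false

namespace Pool.Agent.OCN

section
variable {V : Type} [Fintype V]

/-- the first position -/
theorem P1e.init : P1e (fun _ _ : V => False) (Fintype.card V) (Fintype.card V) 0 0 0 0 := by
  classical
  have e0 : g0 0 1 2 3 0 = 1 := by unfold g0; simp
  have e1 : g0 0 1 2 3 1 = 2 := by unfold g0; simp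
  have e2 : g0 0 1 2 3 2 = 3 := by unfold g0; simp
  have e3 : g0 0 1 2 3 (-1) = 0 := by unfold g0; simp
  have hlo : ∀ z : V, g0 0 1 2 3 ((R0 V).lo z) = 1 := fun z => e0
  have hhi : ∀ z : V, g0 0 1 2 3 ((R0 V).hi z) = 2 := fun z => e1
  refine ⟨Finset.univ, R0 V, g0 0 1 2 3, 0, 1, ⟨⟨R0_st (by norm_num) (by norm_num) (by norm_num)
    ?_ ?_ ?_ ?_, ?_, ?_, ?_, ?_, ⟨-1, e3⟩, ⟨0, e0⟩, ⟨1, e1⟩, ⟨2, e2⟩⟩, ?_, ?_⟩, ?_,
    Finset.card_univ⟩
  · unfold H1; simp
  · unfold H1; simp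
  · unfold A1; omega
  · unfold B1; omega
  · intro z _
    exact Or.inl ⟨hlo z, hhi z⟩
  · rw [← Finset.card_univ, ← cn_true (K := (Finset.univ : Finset V)) (R := R0 V)
      (g := g0 0 1 2 3)]
    refine cn_congr fun z _ => ?_
    rw [hlo, hhi]
    simp
  · by_contra hne
    obtain ⟨z, _, hz⟩ := cn_pos (Nat.pos_of_ne_zero hne)
    rw [hlo, hhi] at hz
    omega
  · by_contra hne
    obtain ⟨z, _, hz⟩ := cn_pos (Nat.pos_of_ne_zero hne)
    rw [hlo, hhi] at hz
    omega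
  · exact fun z _ _ _ _ => ⟨rfl, rfl⟩
  · exact fun z _ => ⟨le_rfl, le_rfl⟩
  · intro p _ _
    unfold Rep.N
    rw [← Finset.card_univ]
    exact Finset.card_filter_le _ _

/-- the first position, with `x` columns -/
theorem P1e.start (x : ℕ) (hx : x ≤ Fintype.card V) :
    P1e (fun _ _ : V => False) (Fintype.card V) (Fintype.card V - x) 0 0 x 0 := by
  have h : P1e (fun _ _ : V => False) (Fintype.card V) ((Fintype.card V - x) + 0 + x) 0 0 0 0 := by
    have := P1e.init (V := V)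
    rwa [Nat.add_zero, Nat.sub_add_cancel hx]
  obtain ⟨r', h1, _, h3⟩ := h.buy 0 x
  have h4 : newP (fun _ _ : V => False) r' = 0 := by omega
  have h5 : r' = fun _ _ => False := by
    classical
    funext u v
    refine propext ⟨fun huv => ?_, fun h => h.elim⟩
    unfold newP at h4
    have h6 := Finset.eq_empty_iff_forall_notMem.1 (Finset.card_eq_zero.1 h4) (u, v)
    simp only [Finset.mem_filter, Finset.mem_univ, true_and, not_false_eq_true, and_true] at h6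
    exact h6 huv
  rw [h5] at h1
  simpa using h1

/-- Phase 1 with exact heights from a list of cells of three kinds: the class `E` of the next phase
and the positions of the plan form a closed class. -/
theorem P1e.cellsV {B n q K G S C : ℕ} {E : Set (V → V → Prop)} {c : ℕ → CellV}
    (hq : 2 * S + 1 ≤ q) (hB : K * q + (1 + S + S * S) ≤ B) (hn : G * q ≤ n)
    (hok : ∀ e < C, okCV K G S (c e) = true) (hN : ∀ e < C, okNV c C e = true)
    (hExit : ∀ (r : V → V → Prop) (o N M y x : ℕ), VExit c C q N M y x → 1 ≤ x →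
      P1e r n o y N x M → r ∈ E)
    (hE : ∀ r ∈ E, Ans B (E ∪ {r | ∃ o y N x M, P1e r n o y N x M ∧
      (VDom c C q N M y x ∧ 1 ≤ x)}) r) :
    ClosedR B (E ∪ {r : V → V → Prop | ∃ o y N x M, P1e r n o y N x M ∧
      (VDom c C q N M y x ∧ 1 ≤ x)}) := by
  refine P1e.closed (fun _ y N x M => VDom c C q N M y x ∧ 1 ≤ x)
    (fun o y N x M h => h.2) ?_ hE
  rintro o y N x M ⟨hD, hx⟩ ho
  rcases hD.moves hq hB hn hok hN ho with h | ⟨h1, i, j, o', i', j', o'', h2, ⟨h3, h4, h5⟩,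
    ⟨h6, h7, h8⟩⟩
  · exact Or.inl fun r hr => hExit r o N M y x h hx hr
  · exact Or.inr ⟨h1, i, j, o', i', j', o'', h2, ⟨h3, h4, h5, by omega⟩, ⟨h6, h7, h8, by omega⟩⟩

end

/-- The negation of the statement from a list of cells of three kinds with `2 K ^ 2 < G ^ 2` and,
for all large `q`, an end class on `G * q` elements which contains all exits with exact heights. -/
theorem final_of_cellsE {K G S C R0 q0 : ℕ} {c : ℕ → CellV} (hKG : 2 * (K * K) < G * G)
    (hK : 1 ≤ K) (hR : 1 + S + S * S ≤ R0) (hC : 1 ≤ C)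
    (hok : ∀ e < C, okCV K G S (c e) = true) (hN : ∀ e < C, okNV c C e = true)
    (h0 : (c 0).N = 0 ∧ (c 0).M = 0 ∧ (c 0).y = 0 ∧ 1 ≤ (c 0).x ∧ (c 0).x ≤ G)
    (hE : ∀ q, q0 ≤ q → ∃ E : Set (Fin (G * q) → Fin (G * q) → Prop), (∀ r ∈ E, SO r) ∧
      ClosedR (K * q + R0) E ∧ ∀ (r : Fin (G * q) → Fin (G * q) → Prop) (o N M y x : ℕ),
        VExit c C q N M y x → 1 ≤ x → P1e r (G * q) o y N x M → r ∈ E) :
    ¬ (∀ ε : ℝ, 0 < ε → ∃ N : ℕ, ∀ n : ℕ, N ≤ n → ∀ b : ℕ, 1 ≤ b →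
    (b : ℝ) ≤ (1 / Real.sqrt 2 - ε) * (n : ℝ) →
    ∀ WM WB : Set (Finset (Fin n × Fin n)),
      (∀ D : Finset (Fin n × Fin n),
          (∃ v : Fin n, Relation.TransGen (fun x y => (x, y) ∈ D) v v) →
            D ∈ WM ∧ D ∈ WB) →
      (∀ D : Finset (Fin n × Fin n),
          (∃ i j : Fin n, i ≠ j ∧ (i, j) ∉ D ∧ (j, i) ∉ D ∧ insert (i, j) D ∈ WB) →
            D ∈ WM) →
      (∀ D : Finset (Fin n × Fin n),
          (∃ i j : Fin n, i ≠ j ∧ (i, j) ∉ D ∧ (j, i) ∉ D) →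
          (∀ A : Finset (Fin n × Fin n), A.Nonempty → A.card ≤ b →
              (∀ p ∈ A, p.1 ≠ p.2 ∧ p ∉ D ∧ p.swap ∉ D ∧ p.swap ∉ A) →
                D ∪ A ∈ WM) →
            D ∈ WB) →
      (∅ : Finset (Fin n × Fin n)) ∈ WM) := by
  have hG : 1 ≤ G := by
    rcases Nat.eq_zero_or_pos G with rfl | h
    · omega
    · exact h
  have hG' : (0 : ℝ) < G := by exact_mod_cast hG
  have hK' : (0 : ℝ) < K := by exact_mod_cast hK
  have hlt : (K : ℝ) / G < 1 / Real.sqrt 2 := by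
    rw [div_lt_div_iff₀ hG' (Real.sqrt_pos.2 (by norm_num)), one_mul]
    have h1 : (Real.sqrt 2) * (Real.sqrt 2) = 2 := Real.mul_self_sqrt (by norm_num)
    have h2 : (2 : ℝ) * (K * K) < G * G := by exact_mod_cast hKG
    by_contra hcon
    push Not at hcon
    have h3 : (G : ℝ) * G ≤ (K * Real.sqrt 2) * (K * Real.sqrt 2) :=
      mul_self_le_mul_self hG'.le hcon
    have h4 : (K * Real.sqrt 2) * (K * Real.sqrt 2) = 2 * ((K : ℝ) * K) := by
      calc (K * Real.sqrt 2) * (K * Real.sqrt 2) = (K * K) * (Real.sqrt 2 * Real.sqrt 2) := by ring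
        _ = 2 * ((K : ℝ) * K) := by rw [h1]; ring
    linarith
  obtain ⟨c', hc1, hc2⟩ := exists_between hlt
  refine frameR c' hc2 fun N => ?_
  -- the size
  obtain ⟨m, hm⟩ := exists_nat_gt ((R0 : ℝ) / (c' * G - K))
  have hpos : 0 < c' * G - K := by
    have := (div_lt_iff₀ hG').1 hc1
    linarith
  obtain ⟨q, hq⟩ : ∃ q, q = N + m + q0 + (2 * S + 1) := ⟨_, rfl⟩
  have hmq : (m : ℝ) ≤ q := by exact_mod_cast (show m ≤ q by omega)
  have hcost : ((K * q + R0 : ℕ) : ℝ) ≤ c' * ((G * q : ℕ) : ℝ) := by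
    push_cast
    have h1 : (R0 : ℝ) < m * (c' * G - K) := (div_lt_iff₀ hpos).1 hm
    have h2 : (m : ℝ) * (c' * G - K) ≤ q * (c' * G - K) :=
      mul_le_mul_of_nonneg_right hmq hpos.le
    nlinarith
  obtain ⟨E, hE1, hE2, hE3⟩ := hE q (by omega)
  obtain ⟨e1, e2, e3, e4, e5⟩ := h0
  have hx0 : q * (c 0).x ≤ Fintype.card (Fin (G * q)) := by
    rw [Fintype.card_fin]
    calc q * (c 0).x ≤ q * G := Nat.mul_le_mul_left _ e5
      _ = G * q := Nat.mul_comm _ _
  have hx1 : 1 ≤ q * (c 0).x := Nat.mul_pos (by omega) e4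
  have h00 : VDom c C q 0 0 0 (q * (c 0).x) := by
    refine ⟨0, hC, q, 0, 0, 0, ⟨by omega, by rw [e1]; simp, by rw [e2]; simp,
      by rw [e3]; simp, by simp⟩, ?_⟩
    rcases okCV_ty (hok 0 hC) with h | h | h
    · exact Or.inl ⟨h, Or.inr rfl⟩
    · exact Or.inr (Or.inl ⟨h, Or.inl rfl⟩)
    · exact Or.inr (Or.inr ⟨h, rfl⟩)
  have hst := P1e.start (V := Fin (G * q)) (q * (c 0).x) hx0
  rw [Fintype.card_fin] at hst
  refine ⟨Fin (G * q), inferInstance, K * q + R0, ?_, ?_, ?_,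
    E ∪ {r | ∃ o y N x M, P1e r (G * q) o y N x M ∧ (VDom c C q N M y x ∧ 1 ≤ x)}, ?_, ?_, ?_⟩
  · rw [Fintype.card_fin]
    calc N ≤ q := by omega
      _ = 1 * q := (one_mul q).symm
      _ ≤ G * q := Nat.mul_le_mul_right _ hG
  · omega
  · rw [Fintype.card_fin]
    exact hcost
  · exact Or.inr ⟨_, _, _, _, _, hst, h00, hx1⟩
  · rintro r (h1 | ⟨o, y, N, x, M, h1, _⟩)
    · exact hE1 r h1
    · exact h1.so
  · exact P1e.cellsV (n := G * q) (by omega) (by omega) le_rfl hok hN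
      (fun r o N M y x h1 h2 h3 => hE3 r o N M y x h1 h2 h3)
      (fun r hr => ((closedR_iff _ _).1 hE2 r hr).mono Set.subset_union_left)

end Pool.Agent.OCN
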