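import Pool.Agent.Lib_helper87.OCN.P1eC

/-!
# MP_aeb124_co: phase 1 with exact heights on the right side, the attacks and the number game
-/

set_option autoImplicit false

namespace Pool.Agent.OCN

variable {V : Type} {r : V → V → Prop} {K : Finset V} {R : Rep V} {g : ℤ → ℤ} {a b : ℤ}
  {o y N x M n : ℕ}

variable [Fintype V]

/-- the attack `u → v` of an undecided element on an element with a start in the left region -/
theorem P1sd.ansL1 (h : P1sd r K R g a b (fun _ => False) (o + 1) y N x M)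
    (hex : Ex K R g b (o + 1 + x)) {u v : V} (huv : u ≠ v) (hn1 : ¬ r u v) (hn2 : ¬ r v u)
    (hu : u ∈ K) (hv : v ∈ K) (hu1 : g (R.lo u) = 1) (hu2 : g (R.hi u) = 2)
    (hv1 : g (R.lo v) = 1) :
    ∃ (r' : V → V → Prop) (R' : Rep V) (g' : ℤ → ℤ),
      P1sd r' K R' g' a (b + 1) (fun w => w = v) o y (N + 1) x M ∧
      Ex K R' g' (b + 1) (o + x) ∧ (∀ a b, r a b → r' a b) ∧ r' u v ∧
      newP r r' + (o + y) ≤ K.card ∧ g' (R'.lo v) = 1 ∧ g' (R'.hi v) = g (R.hi v) ∧
      R'.hi v = R.hi v + 1 := by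
  classical
  have hm := h.d.st.hg.mono
  have hlv := hm (R.le v)
  obtain ⟨hua, hub⟩ := h.fl u hu hu1 hu2 fun h => h
  have hne : ∀ {p : ℤ} {s : ℤ}, Ne g s → Ne (cg g p) s := fun h => (ne_cg _).2 h
  obtain ⟨r', R', p, k1, k2, k3, k4, k5, k6, k7, k8, k9, k10, k11⟩ :=
    h.d.st.attackP huv hn1 hn2 (ρ := 1) (by omega) (by omega) (by omega) (by omega) h.d.n1
  obtain ⟨t1, t2, t3, t4, t5, t6⟩ := h.after hu k2 k8 k9 k10 k11
  rw [k1] at t1 t2
  obtain ⟨k21, k22⟩ := id k2
  obtain ⟨k31, k32⟩ := id k3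
  have hty : ∀ z ∈ K, z ≠ u → z ≠ v → cg g p (R'.lo z) = g (R.lo z) ∧
      cg g p (R'.hi z) = g (R.hi z) := fun z _ hzu hzv => ⟨t3 z hzv, t4 z hzu⟩
  have htwo := fun P => cn_two (P := P) hu hv huv hty
  have eul : cg g p (R'.lo u) = 1 := by rw [t3 u huv, hu1]
  have evh : cg g p (R'.hi v) = g (R.hi v) := t4 v huv.symm
  refine ⟨r', R', cg g p, ⟨⟨⟨k4.loc, k4.hg.weaken ?_ (fun _ _ h => h) (fun _ _ h => h)⟩, ?_,
    ?_, ?_, ?_, hne h.d.n0, hne h.d.n1, hne h.d.n2, hne h.d.n3⟩, ?_, t6⟩, ?_, k5, k6, ?_, t1, evh,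
    ?_⟩
  · intro s
    rw [hv1, hu2]
    unfold H1
    split_ifs <;> omega
  · intro z hz
    by_cases hzu : z = u
    · subst hzu
      rw [eul, t2]
      omega
    · by_cases hzv : z = v
      · subst hzv
        rw [t1, evh]
        rcases h.d.ty z hz with h1 | h1 | h1 <;> omega
      · rw [(hty z hz hzu hzv).1, (hty z hz hzu hzv).2]
        exact h.d.ty z hz
  · have e1 := htwo (fun a b => a = 1 ∧ b = 2)
    have e2 := h.d.co
    rcases h.d.ty v hv with h1 | h1 | h1
    · simp only [eul, t2, t1, evh, hu1, hu2, hv1, h1.2] at e1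
      norm_num at e1
      omega
    · simp only [eul, t2, t1, evh, hu1, hu2, hv1, h1.2] at e1
      norm_num at e1
      omega
    · omega
  · have e1 := htwo (fun a b => a = 1 ∧ b = 1)
    have e2 := h.d.cl
    rcases h.d.ty v hv with h1 | h1 | h1
    · simp only [eul, t2, t1, evh, hu1, hu2, hv1, h1.2] at e1
      norm_num at e1
      omega
    · simp only [eul, t2, t1, evh, hu1, hu2, hv1, h1.2] at e1
      norm_num at e1
      omega
    · omega
  · have e1 := htwo (fun a b => a = 2 ∧ b = 2)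
    have e2 := h.d.cr
    rcases h.d.ty v hv with h1 | h1 | h1
    · simp only [eul, t2, t1, evh, hu1, hu2, hv1, h1.2] at e1
      norm_num at e1
      omega
    · simp only [eul, t2, t1, evh, hu1, hu2, hv1, h1.2] at e1
      norm_num at e1
      omega
    · omega
  · intro w hw hw1 hw2 hwv
    have hwu : w ≠ u := by
      rintro rfl
      rw [t2] at hw2
      omega
    exact t5 w hw hw1 hw2 hwu hwv
  · intro q hq hqb
    have hqp : p < q := by
      by_contra hle
      rw [cg_le (by omega)] at hq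
      have := hm (show q ≤ p by omega)
      omega
    have h1 : g (q - 1) = 2 := (cg_gt hqp).symm.trans hq
    have h2 := hex (q - 1) h1 (by omega)
    have h3 : R'.N K q + 1 ≤ R.N K (q - 1) := by
      refine Rep.N_lt (w := u) hu ⟨by omega, by omega⟩ (fun hc => ?_) (fun z hz hc => ?_)
      · have := hc.2
        omega
      · obtain ⟨hc1, hc2⟩ := hc
        have hzu : z ≠ u := by
          rintro rfl
          omega
        constructor
        · by_cases hzv : z = v
          · rw [hzv]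
            omega
          · rcases k10 z hzv with h4 | h4 <;> omega
        · rcases k11 z hzu with h4 | h4 <;> omega
    omega
  · unfold H1 at k7
    rw [if_pos rfl] at k7
    omega
  · rcases k11 v huv.symm with h4 | h4 <;> omega

/-- the attack `u → v` of an element of the left part on an element with a start in the left
region, `z` is an undecided element, `z = v` if `v` is undecided -/
theorem P1sd.ansL2 (h : P1sd r K R g a b (fun _ => False) (o + 1) y N x M)
    (hex : Ex K R g b (o + 1 + x)) {u v z : V} (huv : u ≠ v) (hn1 : ¬ r u v) (hn2 : ¬ r v u)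
    (hu : u ∈ K) (hu1 : g (R.lo u) = 1) (hu2 : g (R.hi u) = 1)
    (hv1 : g (R.lo v) = 1) (hz : z ∈ K) (hz1 : g (R.lo z) = 1) (hz2 : g (R.hi z) = 2)
    (hzv : g (R.hi v) = 2 → z = v) :
    ∃ (r' : V → V → Prop) (R' : Rep V) (g' : ℤ → ℤ),
      P1sd r' K R' g' a (b + 1) (fun _ => False) o y (N + 1) x M ∧
      Ex K R' g' (b + 1) (o + x) ∧ (∀ a b, r a b → r' a b) ∧ r' u v ∧
      newP r r' + (o + y) ≤ K.card := by
  classical
  have hm := h.d.st.hg.mono
  have hlv := hm (R.le v)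
  obtain ⟨hza, hzb⟩ := h.fl z hz hz1 hz2 fun h => h
  have hzu : z ≠ u := by rintro rfl; omega
  have hne : ∀ {p : ℤ} {s : ℤ}, Ne g s → Ne (cg g p) s := fun h => (ne_cg _).2 h
  obtain ⟨r', R', p, k1, k2, k3, k4, k5, k6, k7, k8, k9, k10, k11⟩ :=
    h.d.st.attackP huv hn1 hn2 (ρ := 1) (by omega) (by omega) (by omega) (by omega) h.d.n1
  obtain ⟨t1, t2, t3, t4, t5, t6⟩ := h.after hu k2 k8 k9 k10 k11
  rw [k1] at t1 t2
  obtain ⟨k21, k22⟩ := id k2
  obtain ⟨k31, k32⟩ := id k3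
  have hty : ∀ z, cg g p (R'.lo z) = g (R.lo z) ∧ cg g p (R'.hi z) = g (R.hi z) := by
    intro z
    constructor
    · by_cases hzv : z = v
      · rw [hzv, t1, hv1]
      · exact t3 z hzv
    · by_cases hzu : z = u
      · rw [hzu, t2, hu2]
      · exact t4 z hzu
  have hcn : ∀ P, cn K R' (cg g p) P = cn K R g P := fun P => cn_congr fun z _ => by
    rw [(hty z).1, (hty z).2]
  have hz2' : R'.hi z = b + 1 := by
    have hpb : p ≤ b := by
      by_contra hlt
      have := hm (show b ≤ p by omega)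
      rw [← hzb] at this
      omega
    rcases k11 z hzu with h1 | h1 <;> omega
  obtain ⟨r'', R'', m1, m2, m3, m4, m5, m6, m7⟩ := P1sd.rowE (r := r') (K := K) (R := R')
    (g := cg g p) (a := a) (b := b + 1) (E := fun w => w = v) (z := z)
    (o := o) (y := y) (N := N + 1) (x := x) (M := M)
    ⟨k4.loc, k4.hg.weaken (fun s => by
      rw [hv1, hu2]
      unfold H1
      split_ifs <;> omega) (fun _ _ h => h) (fun _ _ h => h)⟩
    (fun z hz => by rw [(hty z).1, (hty z).2]; exact h.d.ty z hz)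
    (by rw [hcn]; exact h.d.co) (by rw [hcn, h.d.cl]; ring) (by rw [hcn]; exact h.d.cr)
    (hne h.d.n0) (hne h.d.n1) (hne h.d.n2) (hne h.d.n3)
    (fun w hw hw1 hw2 hwv => by
      refine t5 w hw hw1 hw2 ?_ hwv
      rintro rfl
      rw [t2] at hw2
      omega)
    t6 hz (by rw [(hty z).1]; exact hz1) (by rw [(hty z).2]; exact hz2)
  refine ⟨r'', R'', cg g p, ⟨m1.d, fun w hw hw1 hw2 _ => ?_, m1.al⟩, ?_,
    fun a b hab => m2 a b (k5 a b hab), m2 u v k6, ?_⟩
  · refine m1.fl w hw hw1 hw2 ?_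
    rintro ⟨rfl, hwz⟩
    -- `v` is not undecided
    have h1 : R''.hi w = R'.hi w := m6 w hwz
    rw [h1, (hty w).2] at hw2
    exact hwz (hzv hw2).symm
  · intro q hq hqb
    have hqp : p < q := by
      by_contra hle
      rw [cg_le (by omega)] at hq
      have := hm (show q ≤ p by omega)
      omega
    have h1 : g (q - 1) = 2 := (cg_gt hqp).symm.trans hq
    have h2 := hex (q - 1) h1 (by omega)
    have h3 : R''.N K q + 1 ≤ R.N K (q - 1) := by
      refine Rep.N_lt (w := z) hz ⟨?_, by omega⟩ (fun hc => ?_) (fun w hw hc => ?_)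
      · by_contra hlt
        have := hm (show q - 1 ≤ R.lo z by omega)
        omega
      · have h4 := cg_mono hm p hc.2
        omega
      · obtain ⟨hc1, hc2⟩ := hc
        rw [m7] at hc1
        have hwz : w ≠ z := by
          rintro rfl
          have h4 := cg_mono hm p hc2
          omega
        rw [m6 w hwz] at hc2
        have hwu : w ≠ u := by
          rintro rfl
          omega
        constructor
        · by_cases hwv : w = v
          · rw [hwv]
            omega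
          · rcases k10 w hwv with h4 | h4 <;> omega
        · rcases k11 w hwu with h4 | h4 <;> omega
    omega
  · have e1 := newP_trans (r := r) (r' := r') (r'' := r'')
    have e2 := h.d.abv1
    have e3 : (K.filter fun w => cg g p (R'.lo w) = 2 ∧ R'.lo w ≤ R'.hi z).card ≤ x + M := by
      rw [← h.d.cr]
      refine card_filter_le_cn fun w hw h8 => ?_
      rw [(hty w).1] at h8
      rcases h.d.ty w hw with h9 | h9 | h9 <;> omega
    rw [hu2, e2] at k7
    unfold H1 at k7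
    rw [if_pos rfl] at k7
    omega

/-- the attacks in phase 1 with exact heights -/
theorem P1e.attack (h : P1e r n (o + 1) y N x M) {u v : V} (huv : u ≠ v)
    (hn1 : ¬ r u v) (hn2 : ¬ r v u) :
    (∃ r' : V → V → Prop, P1e r' n o y (N + 1) x M ∧ (∀ a b, r a b → r' a b) ∧ r' u v ∧
      newP r r' + (o + y) ≤ n) ∨
    (∃ r' : V → V → Prop, P1e r' n o y N x (M + 1) ∧ (∀ a b, r a b → r' a b) ∧ r' u v ∧
      newP r r' + (o + x) ≤ n) ∨
    ((∃ r' : V → V → Prop, P1el r' n o y (N + 1) x M ∧ (∀ a b, r a b → r' a b) ∧ r' u v ∧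
      newP r r' + (o + y) ≤ n) ∧
    (∃ r' : V → V → Prop, P1et r' n o y N x (M + 1) ∧ (∀ a b, r a b → r' a b) ∧ r' u v ∧
      newP r r' + (o + x) ≤ n)) := by
  classical
  obtain ⟨K, R, g, a, b, h, hex, hn⟩ := h
  have hcard := h.d.card
  obtain ⟨hu, hv⟩ := h.d.st.loc.mem huv hn1 hn2
  have hm := h.d.st.hg.mono
  -- comparable pairs
  have hcmp : ∀ a ∈ K, ∀ b ∈ K, g (R.hi a) < g (R.lo b) → r a b := by
    intro a ha b hb hab
    rw [h.d.st.loc.eq a ha b hb]
    unfold Rep.rel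
    by_contra hlt
    have := hm (show R.lo b ≤ R.hi a by omega)
    omega
  have hcom : ∃ p, R.Cr u p ∧ R.Cr v p := by
    have e1 := hn1
    have e2 := hn2
    rw [h.d.st.loc.eq u hu v hv] at e1
    rw [h.d.st.loc.eq v hv u hu] at e2
    exact R.common e1 e2
  rcases h.d.ty u hu with ⟨hu1, hu2⟩ | ⟨hu1, hu2⟩ | ⟨hu1, hu2⟩
  · rcases h.d.ty v hv with ⟨hv1, hv2⟩ | ⟨hv1, hv2⟩ | ⟨hv1, hv2⟩
    · -- both undecided
      obtain ⟨hua, hub⟩ := h.fl u hu hu1 hu2 fun h => h
      obtain ⟨hva, hvb⟩ := h.fl v hv hv1 hv2 fun h => h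
      have hgb : g b = 2 := by rw [← hub]; exact hu2
      have hle := R.le u
      obtain ⟨r1, R1, g1, a1, a2, a3, a4, a5, a6, a7, a8⟩ :=
        h.ansL1 hex huv hn1 hn2 hu hv hu1 hu2 hv1
      obtain ⟨r2, R2, b1, b2, b3, b4, b5, b6, b7, b8, b9⟩ :=
        h.ansT1 hex huv hu hv hu2 hv1 hv2 (p := b) hgb ⟨by omega, by omega⟩ ⟨by omega, by omega⟩
      refine Or.inr (Or.inr ⟨⟨r1, ⟨K, R1, g1, a, b + 1, v, hv, a6, by omega, ?_, a1, a2, hn⟩, a3,
        a4, by omega⟩, r2, ⟨K, R2, cg g b, a, b + 1, u, v, hu, hv, ?_, by omega, ?_, b8,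
          by omega, b4, b1, b2, hn⟩, b3, b4, by omega⟩)
      · rw [hvb] at a8
        rw [← a8, a7, hv2]
      · rw [b6, cg_le (by omega), hu1]
      · rw [cg_le (by omega)]
        rw [show b + 1 - 1 = b by ring]
        exact hgb
    · -- an undecided element attacks the left part
      obtain ⟨r1, R1, g1, a1, a2, a3, a4, a5, a6, a7, a8⟩ :=
        h.ansL1 hex huv hn1 hn2 hu hv hu1 hu2 hv1
      refine Or.inl ⟨r1, ⟨K, R1, g1, a, b + 1, ⟨a1.d, fun z hz h1 h2 _ => ?_, a1.al⟩, a2, hn⟩, a3,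
        a4, by omega⟩
      refine a1.fl z hz h1 h2 ?_
      rintro rfl
      rw [a7, hv2] at h2
      omega
    · -- an undecided element attacks the right part
      have hub := (h.fl u hu hu1 hu2 fun h => h).2
      obtain ⟨r1, R1, a1, a2, a3, a4, a5⟩ := h.rowX hex hu hu1 hu2 hub
      refine Or.inl ⟨r1, ⟨K, R1, g, a, b, (a1.mono_E fun _ h => h.1).weaken (by omega) (by omega)
        le_rfl rfl, a2, hn⟩, a3, a5 v hv (by omega), ?_⟩
      omega
  · rcases h.d.ty v hv with ⟨hv1, hv2⟩ | ⟨hv1, hv2⟩ | ⟨hv1, hv2⟩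
    · -- the left part attacks an undecided element
      obtain ⟨r1, R1, g1, a1, a2, a3, a4, a5⟩ :=
        h.ansL2 hex huv hn1 hn2 hu hu1 hu2 hv1 hv hv1 hv2 (fun _ => rfl)
      exact Or.inl ⟨r1, ⟨K, R1, g1, a, b + 1, a1, a2, hn⟩, a3, a4, by omega⟩
    · obtain ⟨z, hz, hz1, hz2⟩ := h.d.exists_open (by omega)
      obtain ⟨r1, R1, g1, a1, a2, a3, a4, a5⟩ :=
        h.ansL2 hex huv hn1 hn2 hu hu1 hu2 hv1 hz hz1 hz2 (fun h => by omega)
      exact Or.inl ⟨r1, ⟨K, R1, g1, a, b + 1, a1, a2, hn⟩, a3, a4, by omega⟩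
    · exact absurd (hcmp u hu v hv (by omega)) hn1
  · rcases h.d.ty v hv with ⟨hv1, hv2⟩ | ⟨hv1, hv2⟩ | ⟨hv1, hv2⟩
    · -- the right part attacks an undecided element
      obtain ⟨p, hcu, hcv⟩ := hcom
      have hp : g p = 2 := by
        have h1 := hm hcu.1
        have h2 := hm hcu.2
        omega
      obtain ⟨r2, R2, b1, b2, b3, b4, b5, b6, b7, b8, b9⟩ :=
        h.ansT1 hex huv hu hv hu2 hv1 hv2 hp hcu hcv
      refine Or.inr (Or.inl ⟨r2, ⟨K, R2, cg g p, a, b + 1, ⟨b1.d, fun z hz h1 h2 _ => ?_, b1.al⟩,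
        b2, hn⟩, b3, b4, by omega⟩)
      refine b1.fl z hz h1 h2 ?_
      rintro rfl
      rw [b6, cg_le hcu.1, hu1] at h1
      omega
    · exact absurd (hcmp v hv u hu (by omega)) hn2
    · obtain ⟨p, hcu, hcv⟩ := hcom
      obtain ⟨z, hz, hz1, hz2⟩ := h.d.exists_open (by omega)
      obtain ⟨r2, R2, b1, b2, b3, b4, b5⟩ := h.ansT2 hex huv hu hv hu1 hv1 hz hz1 hz2 hcu hcv
      exact Or.inr (Or.inl ⟨r2, ⟨K, R2, cg g p, a, b + 1, b1, b2, hn⟩, b3, b4, by omega⟩)

/-- the number game of phase 1 with exact heights: at least one of the two steps has to contain a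
row or a column -/
theorem P1e.closed {B n : ℕ} {E : Set (V → V → Prop)} (Φ : ℕ → ℕ → ℕ → ℕ → ℕ → Prop)
    (hx : ∀ o y N x M, Φ o y N x M → 1 ≤ x)
    (hΦ : ∀ o y N x M, Φ o y N x M → n = o + y + N + x + M →
      (∀ r : V → V → Prop, P1e r n o y N x M → r ∈ E) ∨
      (1 ≤ o ∧ ∃ i j o' i' j' o'', 1 ≤ i + j + i' + j' ∧
        (o = o' + i + j + 1 ∧
          n + i * (x + M) + j * (y + N + 1) + i * j ≤ B + (o - 1 + y) ∧
          Φ o' (y + i) (N + 1) (x + j) M) ∧
        (o = o'' + i' + j' + 1 ∧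
          n + i' * (x + M + 1) + j' * (y + N) + i' * j' ≤ B + (o - 1 + x) ∧
          Φ o'' (y + i') N (x + j') (M + 1))))
    (hE : ∀ r ∈ E, Ans B (E ∪ {r | ∃ o y N x M, P1e r n o y N x M ∧ Φ o y N x M}) r) :
    ClosedR B (E ∪ {r : V → V → Prop | ∃ o y N x M, P1e r n o y N x M ∧ Φ o y N x M}) := by
  rw [closedR_iff]
  rintro r (hr | ⟨o, y, N, x, M, h, hs⟩)
  · exact hE r hr
  · have hn := h.card
    rcases hΦ o y N x M hs hn with h1 | ⟨ho, i, j, o', i', j', o'', hij, ⟨h1, h2, h3⟩,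
      ⟨h4, h5, h6⟩⟩
    · exact hE r (h1 r h)
    · intro u v huv hn1 hn2
      obtain ⟨o1, rfl⟩ : ∃ o1, o = o1 + 1 := ⟨o - 1, by omega⟩
      have e3 : y + (N + 1) = y + N + 1 := by ring
      have e3' : x + (M + 1) = x + M + 1 := by ring
      have e4 : o1 + 1 - 1 = o1 := by omega
      rw [e4] at h2 h5
      have e1 : o1 = o' + i + j := by omega
      have e1' : o1 = o'' + i' + j' := by omega
      have finL : ∀ (r' r'' : V → V → Prop), (∀ a b, r a b → r' a b) → r' u v →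
          newP r r' + (o1 + y) ≤ n → P1e r'' n o' (y + i) (N + 1) (x + j) M →
          (∀ a b, r' a b → r'' a b) → newP r' r'' ≤ i * (x + M) + j * (y + N + 1) + i * j →
          ∃ r'' ∈ (E ∪ {r : V → V → Prop | ∃ o y N x M, P1e r n o y N x M ∧ Φ o y N x M}),
            (∀ a b, r a b → r'' a b) ∧ r'' u v ∧ newP r r'' ≤ B := by
        intro r' r'' k2 k3 k4 m1 m2 m3
        refine ⟨r'', Or.inr ⟨_, _, _, _, _, m1, h3⟩, fun a b hab => m2 a b (k2 a b hab),
          m2 u v k3, ?_⟩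
        have e2 := newP_trans (r := r) (r' := r') (r'' := r'')
        omega
      have finT : ∀ (r' r'' : V → V → Prop), (∀ a b, r a b → r' a b) → r' u v →
          newP r r' + (o1 + x) ≤ n → P1e r'' n o'' (y + i') N (x + j') (M + 1) →
          (∀ a b, r' a b → r'' a b) →
          newP r' r'' ≤ i' * (x + M + 1) + j' * (y + N) + i' * j' →
          ∃ r'' ∈ (E ∪ {r : V → V → Prop | ∃ o y N x M, P1e r n o y N x M ∧ Φ o y N x M}),
            (∀ a b, r a b → r'' a b) ∧ r'' u v ∧ newP r r'' ≤ B := by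
        intro r' r'' k2 k3 k4 m1 m2 m3
        refine ⟨r'', Or.inr ⟨_, _, _, _, _, m1, h6⟩, fun a b hab => m2 a b (k2 a b hab),
          m2 u v k3, ?_⟩
        have e2 := newP_trans (r := r) (r' := r') (r'' := r'')
        omega
      rcases h.attack huv hn1 hn2 with ⟨r', k1, k2, k3, k4⟩ | ⟨r', k1, k2, k3, k4⟩ |
        ⟨⟨r1, k1, k2, k3, k4⟩, ⟨r2, l1, l2, l3, l4⟩⟩
      · rw [e1] at k1
        obtain ⟨r'', m1, m2, m3⟩ := k1.buy i j
        rw [e3] at m3
        exact finL r' r'' k2 k3 k4 m1 m2 m3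
      · rw [e1'] at k1
        obtain ⟨r'', m1, m2, m3⟩ := k1.buy i' j'
        rw [e3'] at m3
        exact finT r' r'' k2 k3 k4 m1 m2 m3
      · by_cases hij1 : 1 ≤ i + j
        · rw [e1] at k1
          obtain ⟨r'', m1, m2, m3⟩ := k1.buy i j hij1
          rw [e3] at m3
          exact finL r1 r'' k2 k3 k4 m1 m2 m3
        · rw [e1'] at l1
          obtain ⟨r'', m1, m2, m3⟩ := l1.buy (hx _ _ _ _ _ hs) i' j' (by omega)
          rw [e3'] at m3
          exact finT r2 r'' l2 l3 l4 m1 m2 m3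

end Pool.Agent.OCN
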