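import Pool.Agent.Lib_helper16.OCN.P1t

/-!
# MP_aeb124_co: phase 1 with exact heights on the right side, tools
-/

set_option autoImplicit false

namespace Pool.Agent.OCN

variable {V : Type}

/-- the gap before the cut at `p` -/
def sh (p q : ℤ) : ℤ := if q ≤ p then q else q - 1

theorem sh_le {p q : ℤ} (h : q ≤ p) : sh p q = q := if_pos h

theorem sh_gt {p q : ℤ} (h : p < q) : sh p q = q - 1 := if_neg (by omega)

theorem cg_sh (g : ℤ → ℤ) (p q : ℤ) : cg g p q = g (sh p q) := by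
  unfold cg sh
  split_ifs <;> rfl

/-- the heights of the gaps of region 2 are at most `m` -/
def Ex (K : Finset V) (R : Rep V) (g : ℤ → ℤ) (b : ℤ) (m : ℕ) : Prop :=
  ∀ p, g p = 2 → p ≤ b → R.N K p ≤ m

namespace Rep

/-- one element leaves the gap -/
theorem N_lt {R R' : Rep V} {K : Finset V} {p q : ℤ} {w : V} (hw : w ∈ K) (h1 : R.Cr w p)
    (h2 : ¬ R'.Cr w q) (h3 : ∀ z ∈ K, R'.Cr z q → R.Cr z p) : R'.N K q + 1 ≤ R.N K p := by
  classical
  unfold N
  have h4 : insert w (K.filter fun z => R'.Cr z q) ⊆ K.filter fun z => R.Cr z p := by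
    intro z hz
    rw [Finset.mem_insert, Finset.mem_filter] at hz
    rw [Finset.mem_filter]
    rcases hz with rfl | hz
    · exact ⟨hw, h1⟩
    · exact ⟨hz.1, h3 z hz.1 hz.2⟩
  have h5 := Finset.card_le_card h4
  have h6 : w ∉ K.filter fun z => R'.Cr z q := fun h => h2 (Finset.mem_filter.1 h).2
  rwa [Finset.card_insert_of_notMem h6] at h5

/-- exactly one element leaves the gap -/
theorem N_drop {R R' : Rep V} {K : Finset V} {p q : ℤ} {w : V} (hw : w ∈ K) (h1 : R.Cr w p)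
    (h2 : ¬ R'.Cr w q) (h3 : ∀ z ∈ K, z ≠ w → (R'.Cr z q ↔ R.Cr z p)) :
    R'.N K q + 1 = R.N K p := by
  refine le_antisymm (N_lt hw h1 h2 fun z hz hc => ?_) (N_le_succ (w := w) fun z hz hzw hc =>
    (h3 z hz hzw).2 hc)
  refine (h3 z hz ?_).1 hc
  rintro rfl
  exact h2 hc

theorem N_pos {R : Rep V} {K : Finset V} {p : ℤ} (h : 1 ≤ R.N K p) : ∃ z ∈ K, R.Cr z p := by
  classical
  unfold N at h
  obtain ⟨z, hz⟩ := Finset.card_pos.1 h
  exact ⟨z, (Finset.mem_filter.1 hz).1, (Finset.mem_filter.1 hz).2⟩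

end Rep

section
variable {r : V → V → Prop} {K : Finset V} {R : Rep V} {g : ℤ → ℤ} {a b : ℤ} {E : V → Prop}
  {o y N x M n : ℕ}

/-- the regions and heights after an operation in which exactly one element leaves every gap -/
theorem P1d.hg_of_drop (h : P1d r K R g (o + 1) y N x M) {R2 : Rep V} {p : ℤ}
    (hd : ∀ q, (∃ z ∈ K, R2.Cr z q) → R2.N K q + 1 = R.N K (sh p q))
    (huh : ∀ q, A1 (cg g p q) (cg g p (q + 1)) → (K.filter fun z => R2.hi z = q).card ≤ 1)
    (hul : ∀ q, B1 (cg g p (q - 1)) (cg g p q) → (K.filter fun z => R2.lo z = q).card ≤ 1) :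
    Hg K R2 (cg g p) (H1 o y x) A1 B1 := by
  refine ⟨cg_mono h.st.hg.mono p, fun q hq => ?_, huh, hul⟩
  have h1 := hd q hq
  have h2 : H1 (o + 1) y x (g (sh p q)) ≤ R.N K (sh p q) :=
    h.st.hg.ht _ (Rep.N_pos (by omega))
  rw [cg_sh]
  unfold H1 at h2 ⊢
  split_ifs at h2 ⊢ <;> omega

end

section
variable [Fintype V] {r : V → V → Prop} {K : Finset V} {R : Rep V} {g : ℤ → ℤ} {H : ℤ → ℕ}
  {A B : ℤ → ℤ → Prop}

/-- the cut at a given gap -/
theorem St.cutE (h : St r K R g H A B) {u v : V} (huv : u ≠ v) (hu : u ∈ K) (hv : v ∈ K) {p : ℤ}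
    (hcu : R.Cr u p) (hcv : R.Cr v p) :
    ∃ (r' : V → V → Prop) (R' : Rep V),
      St r' K R' (cg g p) (fun s => H s - if g (R.lo v) ≤ s ∧ s ≤ g (R.hi u) then 1 else 0) A B ∧
      (∀ a b, r a b → r' a b) ∧ r' u v ∧
      newP r r' + R.U K u + R.D K v + R.N K p = K.card + 1 ∧
      R'.lo v = p + 1 ∧ R'.hi u = p ∧
      (∀ z, z ≠ v → (p < R.lo z ∧ R'.lo z = R.lo z + 1) ∨ (R.lo z ≤ p ∧ R'.lo z = R.lo z)) ∧
      (∀ z, z ≠ u → (p ≤ R.hi z ∧ R'.hi z = R.hi z + 1) ∨ (R.hi z < p ∧ R'.hi z = R.hi z)) := by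
  classical
  obtain ⟨r', h3, h4, h5, h6⟩ := op_cut h.loc p u v huv hu hv hcu hcv
  have hlo := Zc.cut_lo' R huv hcu hcv
  have hhi := Zc.cut_hi' R huv hcu hcv
  refine ⟨r', _, ⟨h3, h.hg.cut huv hcu hcv⟩, h4, h5, h6, ?_, ?_, ?_, ?_⟩
  · rw [hlo, if_pos rfl]
  · rw [hhi, if_pos rfl]
  · intro z hz
    rw [hlo, if_neg hz]
    split_ifs <;> omega
  · intro z hz
    rw [hhi, if_neg hz]
    split_ifs <;> omega

open scoped Classical in
/-- raise the first gap of `z` to the region `ρ`, with the exact price -/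
theorem St.raiseToE (h : St r K R g H A B) {z : V} (hz : z ∈ K) {ρ : ℤ} (h1 : g (R.lo z) < ρ)
    (h2 : ρ ≤ g (R.hi z)) (hρ : Ne g ρ) (hB : ∀ a, a < ρ → ¬ B a ρ) :
    ∃ (r' : V → V → Prop) (R' : Rep V),
      St r' K R' g (fun s => H s - if g (R.lo z) ≤ s ∧ s < ρ then 1 else 0) A B ∧
      (∀ a b, r a b → r' a b) ∧
      newP r r' ≤ (K.filter fun a => R.lo z ≤ R.hi a ∧ g (R.hi a) < ρ).card ∧
      (∀ w, w ≠ z → R'.lo w = R.lo w) ∧ g (R'.lo z) = ρ ∧ (∀ w, R'.hi w = R.hi w) := by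
  obtain ⟨p, hp⟩ := hρ
  obtain ⟨q, hq1, hq2, hq3, hq4⟩ := exists_first h1 hp h.hg.mono
  have h3 : q ≤ R.hi z := by
    by_contra hlt
    have := h.hg.mono (show R.hi z ≤ q - 1 by omega)
    omega
  have h4 : R.lo z ≤ q := by omega
  obtain ⟨r', h5, h6, h7⟩ := op_raise h.loc z hz q h3 h4
  have h8 := h.hg.raise (z := z) (q := q) (by omega) h3 h4 (by rw [hq4]; exact hB _ hq3)
  rw [hq4] at h8
  refine ⟨r', _, ⟨h5, h8⟩, h6, ?_, fun w hw => if_neg hw, ?_, fun w => rfl⟩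
  · rw [h7]
    refine Finset.card_le_card fun w hw => ?_
    rw [Finset.mem_filter] at hw ⊢
    exact ⟨hw.1, hw.2.1, lt_of_le_of_lt (h.hg.mono (show R.hi w ≤ q - 1 by omega)) hq3⟩
  · have : (R.raise z q h3).lo z = q := if_pos rfl
    rw [this, hq4]

open scoped Classical in
/-- lower the last gap of `z` to the region `ρ`, with the exact price -/
theorem St.lowerToE (h : St r K R g H A B) {z : V} (hz : z ∈ K) {ρ : ℤ} (h1 : ρ < g (R.hi z))
    (h2 : g (R.lo z) ≤ ρ) (hρ : Ne g ρ) (hA : ∀ a, ρ < a → ¬ A ρ a) :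
    ∃ (r' : V → V → Prop) (R' : Rep V),
      St r' K R' g (fun s => H s - if ρ < s ∧ s ≤ g (R.hi z) then 1 else 0) A B ∧
      (∀ a b, r a b → r' a b) ∧
      newP r r' ≤ (K.filter fun a => ρ < g (R.lo a) ∧ R.lo a ≤ R.hi z).card ∧
      (∀ w, w ≠ z → R'.hi w = R.hi w) ∧ g (R'.hi z) = ρ ∧ (∀ w, R'.lo w = R.lo w) := by
  have e1 : ∀ w, dg g (R.dual.lo w) = -g (R.hi w) := fun w => by
    unfold dg Rep.dual
    simp
  have e2 : ∀ w, dg g (R.dual.hi w) = -g (R.lo w) := fun w => by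
    unfold dg Rep.dual
    simp
  obtain ⟨r', R', h3, h4, h5, h6, h7, h8⟩ := h.dual.raiseToE hz (ρ := -ρ)
    (by rw [e1]; omega) (by rw [e2]; omega) hρ.dual (fun a ha hc => by
      unfold dc at hc
      rw [neg_neg] at hc
      exact hA _ (by omega) hc)
  have h9 : St r' K R' (dg g) (fun s => (fun t => H t -
      if ρ < t ∧ t ≤ g (R.hi z) then 1 else 0) (-s)) (dc B) (dc A) := by
    have e3 : (fun s => (fun t => H t - if ρ < t ∧ t ≤ g (R.hi z) then 1 else 0) (-s)) =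
        (fun s => (fun ρ => H (-ρ)) s -
          if dg g (R.dual.lo z) ≤ s ∧ s < -ρ then 1 else 0) := by
      funext s
      simp only
      rw [e1]
      congr 1
      by_cases hc : ρ < -s ∧ -s ≤ g (R.hi z)
      · rw [if_pos hc, if_pos (by omega)]
      · rw [if_neg hc, if_neg (by omega)]
    rw [e3]
    exact h3
  refine ⟨flip r', R'.dual, h9.of_dual, fun a b hab => h4 b a hab, ?_, ?_, ?_, ?_⟩
  · rw [← newP_flip]
    refine h5.trans (le_of_eq ?_)
    congr 1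
    refine Finset.filter_congr fun a _ => ?_
    rw [e2]
    unfold Rep.dual
    simp only
    constructor
    · rintro ⟨h10, h11⟩
      exact ⟨by omega, by omega⟩
    · rintro ⟨h10, h11⟩
      exact ⟨by omega, by omega⟩
  · intro w hw
    have := h6 w hw
    unfold Rep.dual at this ⊢
    simp only at this ⊢
    omega
  · unfold dg at h7
    unfold Rep.dual
    simp only
    omega
  · intro w
    have := h8 w
    unfold Rep.dual at this ⊢
    simp only at this ⊢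
    omega

end

end Pool.Agent.OCN
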