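import Pool.Agent.Lib_helper87.OCN.P1eA

/-!
# MP_aeb124_co: phase 1 with exact heights on the right side, rows and columns
-/

set_option autoImplicit false

namespace Pool.Agent.OCN

variable {V : Type}

/-- a position of phase 1 with flat undecided elements and exact heights on the right side -/
def P1e (r : V → V → Prop) (n o y N x M : ℕ) : Prop :=
  ∃ K R g a b, P1sd r K R g a b (fun _ => False) o y N x M ∧ Ex K R g b (o + x) ∧ K.card = n

/-- one exception `v`, with a later start, after a left answer -/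
def P1el (r : V → V → Prop) (n o y N x M : ℕ) : Prop :=
  ∃ K R g a b v, v ∈ K ∧ g (R.lo v) = 1 ∧ R.hi v = b ∧ g b = 2 ∧
    P1sd r K R g a b (fun w => w = v) o y N x M ∧ Ex K R g b (o + x) ∧ K.card = n

/-- one exception `u`, which ends one gap before the last gap, `v` is the last gap -/
def P1et (r : V → V → Prop) (n o y N x M : ℕ) : Prop :=
  ∃ K R g a b u v, u ∈ K ∧ v ∈ K ∧ g (R.lo u) = 1 ∧ R.hi u = b - 1 ∧ g (b - 1) = 2 ∧
    R.lo v = b ∧ R.hi v = b ∧ r u v ∧
    P1sd r K R g a b (fun w => w = u) o y N x M ∧ Ex K R g b (o + x) ∧ K.card = n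

section
variable {r : V → V → Prop} {K : Finset V} {R : Rep V} {g : ℤ → ℤ} {a b : ℤ} {E : V → Prop}
  {o y N x M n : ℕ}

theorem P1e.p1s (h : P1e r n o y N x M) : P1s r n o y N x M := by
  obtain ⟨K, R, g, a, b, h, _, hn⟩ := h
  exact ⟨K, R, g, a, b, h, hn⟩

theorem P1e.so (h : P1e r n o y N x M) : SO r := h.p1s.so

theorem P1e.card (h : P1e r n o y N x M) : n = o + y + N + x + M := h.p1s.card

variable [Fintype V]

open scoped Classical in
/-- lower the undecided element `z`, the height of region 1 may be one less than in the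
definition, with the new representation -/
theorem P1sd.rowE (hst : St r K R g (fun s => if s = 1 then o + y else if s = 2 then o + 1 + x
      else 0) A1 B1)
    (ty : ∀ z ∈ K, (g (R.lo z) = 1 ∧ g (R.hi z) = 2) ∨ (g (R.lo z) = 1 ∧ g (R.hi z) = 1) ∨
    (g (R.lo z) = 2 ∧ g (R.hi z) = 2))
    (co : cn K R g (fun a b => a = 1 ∧ b = 2) = o + 1)
    (cl : cn K R g (fun a b => a = 1 ∧ b = 1) + 1 = y + N)
    (cr : cn K R g (fun a b => a = 2 ∧ b = 2) = x + M)
    (n0 : Ne g 0) (n1 : Ne g 1) (n2 : Ne g 2) (n3 : Ne g 3)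
    (fl : ∀ z ∈ K, g (R.lo z) = 1 → g (R.hi z) = 2 → ¬ E z → R.lo z = a ∧ R.hi z = b)
    (al : ∀ z ∈ K, a ≤ R.lo z ∧ R.hi z ≤ b) {z : V} (hz : z ∈ K) (hz1 : g (R.lo z) = 1)
    (hz2 : g (R.hi z) = 2) :
    ∃ (r' : V → V → Prop) (R' : Rep V), P1sd r' K R' g a b (fun w => E w ∧ w ≠ z) o y N x M ∧
      (∀ a b, r a b → r' a b) ∧
      newP r r' ≤ (K.filter fun w => g (R.lo w) = 2 ∧ R.lo w ≤ R.hi z).card ∧
      g (R'.hi z) = 1 ∧ (∀ w ∈ K, 2 ≤ g (R.lo w) → r' z w) ∧
      (∀ w, w ≠ z → R'.hi w = R.hi w) ∧ (∀ w, R'.lo w = R.lo w) := by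
  obtain ⟨r', R', h1, h2, h3, h4, h5, h6⟩ := hst.lowerToE hz (ρ := 1) (by omega) (by omega) n1
    (fun a ha hc => by unfold A1 at hc; omega)
  have hm := hst.hg.mono
  have ht : ∀ w ∈ K, w ≠ z → g (R'.lo w) = g (R.lo w) ∧ g (R'.hi w) = g (R.hi w) :=
    fun w _ hw => ⟨by rw [h6], by rw [h4 w hw]⟩
  have hone := fun P => cn_one (P := P) hz ht
  have hlt : R'.hi z < R.hi z := by
    by_contra hle
    have := hm (show R.hi z ≤ R'.hi z by omega)
    omega
  refine ⟨r', R', ⟨⟨⟨h1.loc, h1.hg.weaken ?_ (fun _ _ h => h) (fun _ _ h => h)⟩, ?_, ?_, ?_, ?_,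
    n0, n1, n2, n3⟩, ?_, ?_⟩, h2, ?_, h5, ?_, h4, h6⟩
  · intro s
    unfold H1
    split_ifs <;> omega
  · intro w hw
    by_cases hwz : w = z
    · subst hwz
      rw [h5, h6]
      omega
    · rw [(ht w hw hwz).1, (ht w hw hwz).2]
      exact ty w hw
  · have := hone (fun a b => a = 1 ∧ b = 2)
    simp only [h5, h6, hz1, hz2] at this
    norm_num at this
    omega
  · have := hone (fun a b => a = 1 ∧ b = 1)
    simp only [h5, h6, hz1, hz2] at this
    norm_num at this
    omega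
  · have := hone (fun a b => a = 2 ∧ b = 2)
    simp only [h5, h6, hz1, hz2] at this
    norm_num at this
    omega
  · intro w hw hw1 hw2 hw3
    by_cases hwz : w = z
    · subst hwz
      omega
    · rw [h6, h4 w hwz]
      rw [(ht w hw hwz).1] at hw1
      rw [(ht w hw hwz).2] at hw2
      exact fl w hw hw1 hw2 fun h => hw3 ⟨h, hwz⟩
  · intro w hw
    by_cases hwz : w = z
    · subst hwz
      have := al w hw
      rw [h6]
      omega
    · rw [h6, h4 w hwz]
      exact al w hw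
  · refine h3.trans (Finset.card_le_card fun w hw => ?_)
    rw [Finset.mem_filter] at hw ⊢
    refine ⟨hw.1, ?_, hw.2.2⟩
    rcases ty w hw.1 with h8 | h8 | h8 <;> omega
  · intro w hw hw1
    rw [h1.loc.eq z hz w hw]
    unfold Rep.rel
    rw [h6]
    by_contra hle
    have := hm (show R.lo w ≤ R'.hi z by omega)
    omega

/-- raise the undecided element `z`, with the new representation -/
theorem P1sd.colE (hst : St r K R g (fun s => if s = 1 then o + 1 + y else if s = 2 then o + x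
      else 0) A1 B1)
    (ty : ∀ z ∈ K, (g (R.lo z) = 1 ∧ g (R.hi z) = 2) ∨ (g (R.lo z) = 1 ∧ g (R.hi z) = 1) ∨
    (g (R.lo z) = 2 ∧ g (R.hi z) = 2))
    (co : cn K R g (fun a b => a = 1 ∧ b = 2) = o + 1)
    (cl : cn K R g (fun a b => a = 1 ∧ b = 1) = y + N)
    (cr : cn K R g (fun a b => a = 2 ∧ b = 2) + 1 = x + M)
    (n0 : Ne g 0) (n1 : Ne g 1) (n2 : Ne g 2) (n3 : Ne g 3)
    (fl : ∀ z ∈ K, g (R.lo z) = 1 → g (R.hi z) = 2 → ¬ E z → R.lo z = a ∧ R.hi z = b)
    (al : ∀ z ∈ K, a ≤ R.lo z ∧ R.hi z ≤ b) {z : V} (hz : z ∈ K) (hz1 : g (R.lo z) = 1)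
    (hz2 : g (R.hi z) = 2) :
    ∃ (r' : V → V → Prop) (R' : Rep V), P1sd r' K R' g a b (fun w => E w ∧ w ≠ z) o y N x M ∧
      (∀ a b, r a b → r' a b) ∧ newP r r' ≤ y + N ∧
      (∀ p, R'.N K p ≤ R.N K p) := by
  classical
  obtain ⟨r', R', h1, h2, h3, h4, h5, h6⟩ := hst.raiseTo hz (ρ := 2) (by omega) (by omega) n2
    (fun a ha hc => by unfold B1 at hc; omega)
  have hm := hst.hg.mono
  have ht : ∀ w ∈ K, w ≠ z → g (R'.lo w) = g (R.lo w) ∧ g (R'.hi w) = g (R.hi w) :=
    fun w _ hw => ⟨by rw [h4 w hw], by rw [h6]⟩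
  have hone := fun P => cn_one (P := P) hz ht
  have hlt : R.lo z < R'.lo z := by
    by_contra hle
    have := hm (show R'.lo z ≤ R.lo z by omega)
    omega
  refine ⟨r', R', ⟨⟨⟨h1.loc, h1.hg.weaken ?_ (fun _ _ h => h) (fun _ _ h => h)⟩, ?_, ?_, ?_, ?_,
    n0, n1, n2, n3⟩, ?_, ?_⟩, h2, ?_, ?_⟩
  · intro s
    unfold H1
    split_ifs <;> omega
  · intro w hw
    by_cases hwz : w = z
    · subst hwz
      rw [h5, h6]
      omega
    · rw [(ht w hw hwz).1, (ht w hw hwz).2]
      exact ty w hw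
  · have := hone (fun a b => a = 1 ∧ b = 2)
    simp only [h5, h6, hz1, hz2] at this
    norm_num at this
    omega
  · have := hone (fun a b => a = 1 ∧ b = 1)
    simp only [h5, h6, hz1, hz2] at this
    norm_num at this
    omega
  · have := hone (fun a b => a = 2 ∧ b = 2)
    simp only [h5, h6, hz1, hz2] at this
    norm_num at this
    omega
  · intro w hw hw1 hw2 hw3
    by_cases hwz : w = z
    · subst hwz
      omega
    · rw [h6, h4 w hwz]
      rw [(ht w hw hwz).1] at hw1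
      rw [(ht w hw hwz).2] at hw2
      exact fl w hw hw1 hw2 fun h => hw3 ⟨h, hwz⟩
  · intro w hw
    by_cases hwz : w = z
    · subst hwz
      have := al w hw
      rw [h6]
      omega
    · rw [h6, h4 w hwz]
      exact al w hw
  · refine h3.trans ?_
    rw [← cl]
    refine card_filter_le_cn fun w hw h7 => ?_
    rcases ty w hw with h8 | h8 | h8 <;> omega
  · intro p
    refine Rep.N_le fun w hw hc => ?_
    obtain ⟨hc1, hc2⟩ := hc
    rw [h6] at hc2
    refine ⟨?_, hc2⟩
    by_cases hwz : w = z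
    · subst hwz
      omega
    · rw [h4 w hwz] at hc1
      exact hc1

/-- a row with the element `z`, which crosses all gaps of region 2 -/
theorem P1sd.rowX (h : P1sd r K R g a b E (o + 1) y N x M) (hex : Ex K R g b (o + 1 + x))
    {z : V} (hz : z ∈ K) (hz1 : g (R.lo z) = 1) (hz2 : g (R.hi z) = 2) (hzb : R.hi z = b) :
    ∃ (r' : V → V → Prop) (R' : Rep V),
      P1sd r' K R' g a b (fun w => E w ∧ w ≠ z) o (y + 1) N x M ∧ Ex K R' g b (o + x) ∧
      (∀ a b, r a b → r' a b) ∧ newP r r' ≤ x + M ∧ (∀ w ∈ K, 2 ≤ g (R.lo w) → r' z w) := by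
  classical
  obtain ⟨r', R', h1, h2, h3, h4, h5, h6, h7⟩ := P1sd.rowE (o := o) (y := y + 1) (N := N) (x := x)
    (M := M) (E := E)
    ⟨h.d.st.loc, h.d.st.hg.weaken (fun s => by unfold H1; split_ifs <;> omega)
      (fun _ _ h => h) (fun _ _ h => h)⟩ h.d.ty h.d.co (by have := h.d.cl; omega) h.d.cr
      h.d.n0 h.d.n1 h.d.n2 h.d.n3 h.fl h.al hz hz1 hz2
  have hm := h.d.st.hg.mono
  refine ⟨r', R', h1, fun p hp hpb => ?_, h2, h3.trans ?_, h5⟩
  · have h8 := hex p hp hpb
    have h9 : R'.N K p + 1 ≤ R.N K p := by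
      refine Rep.N_lt (w := z) hz ⟨?_, by omega⟩ ?_ ?_
      · by_contra hlt
        have := hm (show p ≤ R.lo z by omega)
        omega
      · rintro ⟨_, hc⟩
        have := hm hc
        omega
      · rintro w hw ⟨hc1, hc2⟩
        rw [h7] at hc1
        refine ⟨hc1, ?_⟩
        by_cases hwz : w = z
        · rw [hwz]
          omega
        · rw [h6 w hwz] at hc2
          exact hc2
    omega
  · rw [← h.d.cr]
    refine card_filter_le_cn fun w hw h8 => ?_
    rcases h.d.ty w hw with h9 | h9 | h9 <;> omega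

/-- a column with the element `z` -/
theorem P1sd.colX (h : P1sd r K R g a b E (o + 1) y N x M) (hex : Ex K R g b (o + 1 + x))
    {z : V} (hz : z ∈ K) (hz1 : g (R.lo z) = 1) (hz2 : g (R.hi z) = 2) :
    ∃ (r' : V → V → Prop) (R' : Rep V),
      P1sd r' K R' g a b (fun w => E w ∧ w ≠ z) o y N (x + 1) M ∧ Ex K R' g b (o + (x + 1)) ∧
      (∀ a b, r a b → r' a b) ∧ newP r r' ≤ y + N := by
  obtain ⟨r', R', h1, h2, h3, h4⟩ := P1sd.colE (o := o) (y := y) (N := N) (x := x + 1)
    (M := M) (E := E)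
    ⟨h.d.st.loc, h.d.st.hg.weaken (fun s => by unfold H1; split_ifs <;> omega)
      (fun _ _ h => h) (fun _ _ h => h)⟩ h.d.ty h.d.co h.d.cl (by have := h.d.cr; omega)
      h.d.n0 h.d.n1 h.d.n2 h.d.n3 h.fl h.al hz hz1 hz2
  refine ⟨r', R', h1, fun p hp hpb => ?_, h2, h3⟩
  have := hex p hp hpb
  have := h4 p
  omega

theorem P1e.row (h : P1e r n (o + 1) y N x M) :
    ∃ r' : V → V → Prop, P1e r' n o (y + 1) N x M ∧ (∀ a b, r a b → r' a b) ∧
      newP r r' ≤ x + M := by
  obtain ⟨K, R, g, a, b, h, hex, hn⟩ := h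
  obtain ⟨z, hz, hz1, hz2⟩ := h.d.exists_open (by omega)
  have hzb := (h.fl z hz hz1 hz2 fun h => h).2
  obtain ⟨r', R', h1, h2, h3, h4, _⟩ := h.rowX hex hz hz1 hz2 hzb
  exact ⟨r', ⟨K, R', g, a, b, h1.mono_E fun _ h => h.1, h2, hn⟩, h3, h4⟩

theorem P1e.col (h : P1e r n (o + 1) y N x M) :
    ∃ r' : V → V → Prop, P1e r' n o y N (x + 1) M ∧ (∀ a b, r a b → r' a b) ∧
      newP r r' ≤ y + N := by
  obtain ⟨K, R, g, a, b, h, hex, hn⟩ := h
  obtain ⟨z, hz, hz1, hz2⟩ := h.d.exists_open (by omega)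
  obtain ⟨r', R', h1, h2, h3, h4⟩ := h.colX hex hz hz1 hz2
  exact ⟨r', ⟨K, R', g, a, b, h1.mono_E fun _ h => h.1, h2, hn⟩, h3, h4⟩

theorem P1el.row (h : P1el r n (o + 1) y N x M) :
    ∃ r' : V → V → Prop, P1e r' n o (y + 1) N x M ∧ (∀ a b, r a b → r' a b) ∧
      newP r r' ≤ x + M := by
  obtain ⟨K, R, g, a, b, v, hv, hv1, hv2, hv3, h, hex, hn⟩ := h
  obtain ⟨r', R', h1, h2, h3, h4, _⟩ := h.rowX hex hv hv1 (by rw [hv2]; exact hv3) hv2
  exact ⟨r', ⟨K, R', g, a, b, h1.mono_E fun _ h => h.2 h.1, h2, hn⟩, h3, h4⟩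

theorem P1el.col (h : P1el r n (o + 1) y N x M) :
    ∃ r' : V → V → Prop, P1e r' n o y N (x + 1) M ∧ (∀ a b, r a b → r' a b) ∧
      newP r r' ≤ y + N := by
  obtain ⟨K, R, g, a, b, v, hv, hv1, hv2, hv3, h, hex, hn⟩ := h
  obtain ⟨r', R', h1, h2, h3, h4⟩ := h.colX hex hv hv1 (by rw [hv2]; exact hv3)
  exact ⟨r', ⟨K, R', g, a, b, h1.mono_E fun _ h => h.2 h.1, h2, hn⟩, h3, h4⟩

theorem P1et.col (h : P1et r n (o + 1) y N x M) :
    ∃ r' : V → V → Prop, P1e r' n o y N (x + 1) M ∧ (∀ a b, r a b → r' a b) ∧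
      newP r r' ≤ y + N := by
  obtain ⟨K, R, g, a, b, u, v, hu, hv, hu1, hu2, hu3, _, _, _, h, hex, hn⟩ := h
  obtain ⟨r', R', h1, h2, h3, h4⟩ := h.colX hex hu hu1 (by rw [hu2]; exact hu3)
  exact ⟨r', ⟨K, R', g, a, b, h1.mono_E fun _ h => h.2 h.1, h2, hn⟩, h3, h4⟩

/-- lower the last gap of the element `t` of the right part from `b` to `b - 1` -/
theorem P1sd.endT (h : P1sd r K R g a b E o y N x M) {t v : V} (ht : t ∈ K) (hv : v ∈ K)
    (htv : t ≠ v) (ht1 : g (R.lo t) = 2) (ht2 : R.hi t = b) (hv1 : R.lo v = b)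
    (hb : g (b - 1) = 2) (hN : o + x < R.N K b) :
    ∃ (r' : V → V → Prop) (R' : Rep V), P1sd r' K R' g a b E o y N x M ∧
      (∀ a b, r a b → r' a b) ∧ newP r r' ≤ 1 ∧ R'.N K b + 1 = R.N K b ∧
      (∀ p, p ≠ b → R'.N K p = R.N K p) := by
  classical
  have hm := h.d.st.hg.mono
  have hgb : g b = 2 := by
    rcases h.d.ty t ht with h1 | h1 | h1 <;> rw [← ht2] <;> omega
  have huniq : ∀ w ∈ K, R.lo w = b → w = v := by
    intro w hw hwb
    have h1 := h.d.st.hg.ul b (by unfold B1; exact ⟨hb, hgb⟩)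
    by_contra hne
    have h2 : ({w, v} : Finset V) ⊆ K.filter fun z => R.lo z = b := by
      intro z hz
      rw [Finset.mem_insert, Finset.mem_singleton] at hz
      rw [Finset.mem_filter]
      rcases hz with rfl | rfl
      · exact ⟨hw, hwb⟩
      · exact ⟨hv, hv1⟩
    have h3 := Finset.card_le_card h2
    rw [Finset.card_pair hne] at h3
    omega
  have htl : R.lo t ≤ b - 1 := by
    have h1 := R.le t
    by_contra hlt
    exact htv (huniq t ht (by omega))
  obtain ⟨r', g1, g2, g3⟩ := op_lower h.d.st.loc t ht (b - 1) htl (by omega)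
  obtain ⟨R', hR'⟩ : ∃ R', R' = R.lower t (b - 1) htl := ⟨_, rfl⟩
  have hlo : ∀ w, R'.lo w = R.lo w := fun w => by rw [hR']; rfl
  have hhi : ∀ w, w ≠ t → R'.hi w = R.hi w := fun w hw => by
    rw [hR']; unfold Rep.lower; simp only; rw [if_neg hw]
  have hhit : R'.hi t = b - 1 := by
    rw [hR']; exact if_pos rfl
  rw [← hR'] at g1
  have ht' : ∀ w ∈ K, g (R'.lo w) = g (R.lo w) ∧ g (R'.hi w) = g (R.hi w) := by
    intro w _
    refine ⟨by rw [hlo], ?_⟩
    by_cases hwt : w = t
    · rw [hwt, hhit, ht2, hb, hgb]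
    · rw [hhi w hwt]
  have hcn : ∀ P, cn K R' g P = cn K R g P := fun P => cn_congr fun z hz => by
    rw [(ht' z hz).1, (ht' z hz).2]
  have hNb : R'.N K b + 1 = R.N K b := by
    refine Rep.N_drop (w := t) ht ⟨by omega, by omega⟩ (fun hc => ?_) (fun z hz hzt => ?_)
    · have := hc.2
      omega
    · unfold Rep.Cr
      rw [hlo, hhi z hzt]
  have hNp : ∀ p, p ≠ b → R'.N K p = R.N K p := by
    intro p hp
    have hiff : ∀ z ∈ K, (R'.Cr z p ↔ R.Cr z p) := by
      intro z hz
      unfold Rep.Cr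
      rw [hlo]
      by_cases hzt : z = t
      · rw [hzt, hhit, ht2]
        omega
      · rw [hhi z hzt]
    exact le_antisymm (Rep.N_le fun z hz hc => (hiff z hz).1 hc)
      (Rep.N_le fun z hz hc => (hiff z hz).2 hc)
  refine ⟨r', R', ⟨⟨⟨g1, ⟨hm, ?_, ?_, ?_⟩⟩, ?_, ?_, ?_, ?_, h.d.n0, h.d.n1, h.d.n2, h.d.n3⟩,
    ?_, ?_⟩, g2, ?_, hNb, hNp⟩
  · intro p hp
    by_cases hpb : p = b
    · rw [hpb, hgb]
      unfold H1
      rw [if_neg (by norm_num), if_pos rfl]
      omega
    · rw [hNp p hpb]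
      refine h.d.st.hg.ht p ?_
      obtain ⟨z, hz, hc1, hc2⟩ := hp
      refine ⟨z, hz, by rw [← hlo]; exact hc1, ?_⟩
      by_cases hzt : z = t
      · rw [hzt] at hc2 ⊢
        omega
      · rw [← hhi z hzt]
        exact hc2
  · intro p hp
    refine le_trans (Finset.card_le_card fun w hw => ?_) (h.d.st.hg.uh p hp)
    rw [Finset.mem_filter] at hw ⊢
    refine ⟨hw.1, ?_⟩
    by_cases hwt : w = t
    · exfalso
      rw [hwt, hhit] at hw
      unfold A1 at hp
      rw [← hw.2, hb] at hp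
      omega
    · rw [← hhi w hwt]
      exact hw.2
  · intro p hp
    refine le_trans (Finset.card_le_card fun w hw => ?_) (h.d.st.hg.ul p hp)
    rw [Finset.mem_filter] at hw ⊢
    rw [hlo] at hw
    exact hw
  · intro z hz
    rw [(ht' z hz).1, (ht' z hz).2]
    exact h.d.ty z hz
  · rw [hcn]; exact h.d.co
  · rw [hcn]; exact h.d.cl
  · rw [hcn]; exact h.d.cr
  · intro z hz h1 h2 h3
    rw [(ht' z hz).1] at h1
    rw [(ht' z hz).2] at h2
    have hzt : z ≠ t := by
      rintro rfl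
      omega
    rw [hlo, hhi z hzt]
    exact h.fl z hz h1 h2 h3
  · intro z hz
    have := h.al z hz
    rw [hlo]
    by_cases hzt : z = t
    · rw [hzt, hhit]
      rw [hzt] at this
      omega
    · rw [hhi z hzt]
      exact this
  · rw [g3]
    refine le_trans (Finset.card_le_card (t := {v}) fun w hw => ?_)
      (by rw [Finset.card_singleton])
    rw [Finset.mem_filter] at hw
    rw [Finset.mem_singleton]
    exact huniq w hw.1 (by omega)

/-- the row after a right answer at the last gap -/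
theorem P1et.row (hx : 1 ≤ x) (h : P1et r n (o + 1) y N x M) :
    ∃ r' : V → V → Prop, P1e r' n o (y + 1) N x M ∧ (∀ a b, r a b → r' a b) ∧
      newP r r' ≤ x + M := by
  classical
  obtain ⟨K, R, g, a, b, u, v, hu, hv, hu1, hu2, hu3, hv1, hv2, huv, h, hex, hn⟩ := h
  have hm := h.d.st.hg.mono
  have hu4 : g (R.hi u) = 2 := by rw [hu2]; exact hu3
  have hgb : g b = 2 := by
    have h1 := hm (show b - 1 ≤ b by omega)
    rcases h.d.ty v hv with h2 | h2 | h2 <;> rw [hv1] at h2 <;> omega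
  obtain ⟨r', R', h1, h2, h3, h4, h5, h6, h7⟩ := P1sd.rowE (o := o) (y := y + 1) (N := N) (x := x)
    (M := M) (E := fun w => w = u)
    ⟨h.d.st.loc, h.d.st.hg.weaken (fun s => by unfold H1; split_ifs <;> omega)
      (fun _ _ h => h) (fun _ _ h => h)⟩ h.d.ty h.d.co (by have := h.d.cl; omega) h.d.cr
      h.d.n0 h.d.n1 h.d.n2 h.d.n3 h.fl h.al hu hu1 hu4
  have h1' := h1.mono_E (E' := fun _ => False) fun _ h => h.2 h.1
  -- the price
  have hprice : newP r r' + 1 ≤ x + M := by
    have e1 : (K.filter fun w => g (R.lo w) = 2 ∧ R.lo w ≤ R.hi u) ⊆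
        (K.filter fun w => g (R.lo w) = 2 ∧ g (R.hi w) = 2).erase v := by
      intro w hw
      rw [Finset.mem_filter] at hw
      rw [Finset.mem_erase, Finset.mem_filter]
      refine ⟨?_, hw.1, hw.2.1, ?_⟩
      · rintro rfl
        omega
      · rcases h.d.ty w hw.1 with h9 | h9 | h9 <;> omega
    have e2 := Finset.card_le_card e1
    have hvm : v ∈ K.filter fun w => g (R.lo w) = 2 ∧ g (R.hi w) = 2 := by
      rw [Finset.mem_filter, hv1, hv2]
      exact ⟨hv, hgb, hgb⟩
    have e3 := Finset.card_erase_of_mem hvm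
    have e4 := Finset.card_pos.2 ⟨v, hvm⟩
    have e5 : (K.filter fun w => g (R.lo w) = 2 ∧ g (R.hi w) = 2).card = x + M := by
      rw [← h.d.cr]
      exact card_filter_eq_cn fun z _ => Iff.rfl
    omega
  -- the heights before the last gap
  have hexp : ∀ p, g p = 2 → p ≤ b → p ≠ b → R'.N K p ≤ o + x := by
    intro p hp hpb hpb'
    have h8 := hex p hp hpb
    have h9 : R'.N K p + 1 ≤ R.N K p := by
      refine Rep.N_lt (w := u) hu ⟨?_, by omega⟩ ?_ ?_
      · by_contra hlt
        have := hm (show p ≤ R.lo u by omega)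
        omega
      · rintro ⟨_, hc⟩
        have := hm hc
        omega
      · rintro w hw ⟨hc1, hc2⟩
        rw [h7] at hc1
        refine ⟨hc1, ?_⟩
        by_cases hwz : w = u
        · rw [hwz]
          omega
        · rw [h6 w hwz] at hc2
          exact hc2
    omega
  by_cases hN : R'.N K b ≤ o + x
  · refine ⟨r', ⟨K, R', g, a, b, h1', fun p hp hpb => ?_, hn⟩, h2, by omega⟩
    by_cases hpb' : p = b
    · rw [hpb']
      exact hN
    · exact hexp p hp hpb hpb'
  · -- there is another element of the right part at the last gap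
    have hNb : R'.N K b ≤ R.N K b := by
      refine Rep.N_le fun w hw hc => ?_
      obtain ⟨hc1, hc2⟩ := hc
      rw [h7] at hc1
      refine ⟨hc1, ?_⟩
      by_cases hwu : w = u
      · rw [hwu] at hc2 ⊢
        have := hm hc2
        omega
      · rw [h6 w hwu] at hc2
        exact hc2
    have hRb := hex b hgb le_rfl
    have hex2 : ∃ t ∈ K, g (R'.lo t) = 2 ∧ R'.hi t = b ∧ t ≠ v := by
      by_contra hno
      push Not at hno
      have e1 : R'.N K b ≤ cn K R' g (fun a b => a = 1 ∧ b = 2) + 1 := by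
        unfold Rep.N
        have e2 : (K.filter fun z => R'.Cr z b) ⊆
            insert v (K.filter fun z => g (R'.lo z) = 1 ∧ g (R'.hi z) = 2) := by
          intro z hz
          rw [Finset.mem_filter] at hz
          rw [Finset.mem_insert, Finset.mem_filter]
          obtain ⟨hzK, hc1, hc2⟩ := hz
          by_cases hzv : z = v
          · exact Or.inl hzv
          · right
            have e3 := (h1'.al z hzK).2
            have e4 : R'.hi z = b := by omega
            have e5 : g (R'.hi z) = 2 := by rw [e4]; exact hgb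
            refine ⟨hzK, ?_, e5⟩
            rcases h1'.d.ty z hzK with h9 | h9 | h9
            · exact h9.1
            · omega
            · exact absurd (hno z hzK h9.1 e4) hzv
        have e3 : (K.filter fun z => g (R'.lo z) = 1 ∧ g (R'.hi z) = 2).card =
            cn K R' g (fun a b => a = 1 ∧ b = 2) := card_filter_eq_cn fun z _ => Iff.rfl
        rw [← e3]
        exact (Finset.card_le_card e2).trans (Finset.card_insert_le _ _)
      have e6 := h1'.d.co
      omega
    obtain ⟨t, ht, ht1, ht2, ht3⟩ := hex2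
    obtain ⟨r'', R'', k1, k2, k3, k4, k5⟩ := h1'.endT ht hv ht3 ht1 ht2 (by rw [h7]; exact hv1)
      hu3 (by omega)
    refine ⟨r'', ⟨K, R'', g, a, b, k1, fun p hp hpb => ?_, hn⟩,
      fun a b hab => k2 a b (h2 a b hab), ?_⟩
    · by_cases hpb' : p = b
      · rw [hpb']
        omega
      · rw [k5 p hpb']
        exact hexp p hp hpb hpb'
    · have := newP_trans (r := r) (r' := r') (r'' := r'')
      omega

theorem P1e.rows (i : ℕ) (h : P1e r n (o + i) y N x M) :
    ∃ r' : V → V → Prop, P1e r' n o (y + i) N x M ∧ (∀ a b, r a b → r' a b) ∧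
      newP r r' ≤ i * (x + M) := by
  induction i generalizing o y r with
  | zero => exact ⟨r, h, fun _ _ h => h, by rw [newP_self]; exact Nat.zero_le _⟩
  | succ i ih =>
    have h' : P1e r n ((o + 1) + i) y N x M := by
      have : o + 1 + i = o + (i + 1) := by ring
      rw [this]; exact h
    obtain ⟨r', h1, h2, h3⟩ := ih h'
    obtain ⟨r'', h4, h5, h6⟩ := h1.row
    refine ⟨r'', h4, fun a b hab => h5 a b (h2 a b hab), ?_⟩
    have e1 := newP_trans (r := r) (r' := r') (r'' := r'')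
    calc newP r r'' ≤ i * (x + M) + (x + M) := by omega
      _ = (i + 1) * (x + M) := by ring

theorem P1e.cols (i : ℕ) (h : P1e r n (o + i) y N x M) :
    ∃ r' : V → V → Prop, P1e r' n o y N (x + i) M ∧ (∀ a b, r a b → r' a b) ∧
      newP r r' ≤ i * (y + N) := by
  induction i generalizing o x r with
  | zero => exact ⟨r, h, fun _ _ h => h, by rw [newP_self]; exact Nat.zero_le _⟩
  | succ i ih =>
    have h' : P1e r n ((o + 1) + i) y N x M := by
      have : o + 1 + i = o + (i + 1) := by ring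
      rw [this]; exact h
    obtain ⟨r', h1, h2, h3⟩ := ih h'
    obtain ⟨r'', h4, h5, h6⟩ := h1.col
    refine ⟨r'', h4, fun a b hab => h5 a b (h2 a b hab), ?_⟩
    have e1 := newP_trans (r := r) (r' := r') (r'' := r'')
    calc newP r r'' ≤ i * (y + N) + (y + N) := by omega
      _ = (i + 1) * (y + N) := by ring

/-- `i` rows and `j` columns -/
theorem P1e.buy (i j : ℕ) (h : P1e r n (o + i + j) y N x M) :
    ∃ r' : V → V → Prop, P1e r' n o (y + i) N (x + j) M ∧ (∀ a b, r a b → r' a b) ∧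
      newP r r' ≤ i * (x + M) + j * (y + N) + i * j := by
  have h' : P1e r n ((o + j) + i) y N x M := by
    have : o + j + i = o + i + j := by ring
    rw [this]; exact h
  obtain ⟨r', h1, h2, h3⟩ := h'.rows i
  obtain ⟨r'', h4, h5, h6⟩ := h1.cols j
  refine ⟨r'', h4, fun a b hab => h5 a b (h2 a b hab), ?_⟩
  have e1 := newP_trans (r := r) (r' := r') (r'' := r'')
  calc newP r r'' ≤ i * (x + M) + j * (y + i + N) := by omega
    _ = i * (x + M) + j * (y + N) + i * j := by ring


/-- `i` rows and `j` columns, at least one operation, with an exceptional element -/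
theorem P1el.buy (i j : ℕ) (hij : 1 ≤ i + j) (h : P1el r n (o + i + j) y N x M) :
    ∃ r' : V → V → Prop, P1e r' n o (y + i) N (x + j) M ∧ (∀ a b, r a b → r' a b) ∧
      newP r r' ≤ i * (x + M) + j * (y + N) + i * j := by
  by_cases hi : 1 ≤ i
  · obtain ⟨i', rfl⟩ : ∃ i', i = i' + 1 := ⟨i - 1, by omega⟩
    have h' : P1el r n ((o + i' + j) + 1) y N x M := by
      have : o + i' + j + 1 = o + (i' + 1) + j := by ring
      rw [this]; exact h
    obtain ⟨r', h1, h2, h3⟩ := h'.row
    obtain ⟨r'', h4, h5, h6⟩ := h1.buy i' j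
    refine ⟨r'', ?_, fun a b hab => h5 a b (h2 a b hab), ?_⟩
    · have : y + (i' + 1) = y + 1 + i' := by ring
      rw [this]; exact h4
    · have e1 := newP_trans (r := r) (r' := r') (r'' := r'')
      calc newP r r'' ≤ (x + M) + (i' * (x + M) + j * (y + 1 + N) + i' * j) := by omega
        _ = (i' + 1) * (x + M) + j * (y + N) + (i' + 1) * j := by ring
  · obtain ⟨j', rfl⟩ : ∃ j', j = j' + 1 := ⟨j - 1, by omega⟩
    obtain rfl : i = 0 := by omega
    have h' : P1el r n ((o + 0 + j') + 1) y N x M := by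
      have : o + 0 + j' + 1 = o + 0 + (j' + 1) := by ring
      rw [this]; exact h
    obtain ⟨r', h1, h2, h3⟩ := h'.col
    obtain ⟨r'', h4, h5, h6⟩ := h1.buy 0 j'
    refine ⟨r'', ?_, fun a b hab => h5 a b (h2 a b hab), ?_⟩
    · have : x + (j' + 1) = x + 1 + j' := by ring
      rw [this]; exact h4
    · have e1 := newP_trans (r := r) (r' := r') (r'' := r'')
      calc newP r r'' ≤ (y + N) + (0 * (x + 1 + M) + j' * (y + N) + 0 * j') := by omega
        _ = 0 * (x + M) + (j' + 1) * (y + N) + 0 * (j' + 1) := by ring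

/-- `i` rows and `j` columns, at least one operation, with an exceptional element -/
theorem P1et.buy (hx : 1 ≤ x) (i j : ℕ) (hij : 1 ≤ i + j) (h : P1et r n (o + i + j) y N x M) :
    ∃ r' : V → V → Prop, P1e r' n o (y + i) N (x + j) M ∧ (∀ a b, r a b → r' a b) ∧
      newP r r' ≤ i * (x + M) + j * (y + N) + i * j := by
  by_cases hi : 1 ≤ i
  · obtain ⟨i', rfl⟩ : ∃ i', i = i' + 1 := ⟨i - 1, by omega⟩
    have h' : P1et r n ((o + i' + j) + 1) y N x M := by
      have : o + i' + j + 1 = o + (i' + 1) + j := by ring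
      rw [this]; exact h
    obtain ⟨r', h1, h2, h3⟩ := h'.row hx
    obtain ⟨r'', h4, h5, h6⟩ := h1.buy i' j
    refine ⟨r'', ?_, fun a b hab => h5 a b (h2 a b hab), ?_⟩
    · have : y + (i' + 1) = y + 1 + i' := by ring
      rw [this]; exact h4
    · have e1 := newP_trans (r := r) (r' := r') (r'' := r'')
      calc newP r r'' ≤ (x + M) + (i' * (x + M) + j * (y + 1 + N) + i' * j) := by omega
        _ = (i' + 1) * (x + M) + j * (y + N) + (i' + 1) * j := by ring
  · obtain ⟨j', rfl⟩ : ∃ j', j = j' + 1 := ⟨j - 1, by omega⟩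
    obtain rfl : i = 0 := by omega
    have h' : P1et r n ((o + 0 + j') + 1) y N x M := by
      have : o + 0 + j' + 1 = o + 0 + (j' + 1) := by ring
      rw [this]; exact h
    obtain ⟨r', h1, h2, h3⟩ := h'.col
    obtain ⟨r'', h4, h5, h6⟩ := h1.buy 0 j'
    refine ⟨r'', ?_, fun a b hab => h5 a b (h2 a b hab), ?_⟩
    · have : x + (j' + 1) = x + 1 + j' := by ring
      rw [this]; exact h4
    · have e1 := newP_trans (r := r) (r' := r') (r'' := r'')
      calc newP r r'' ≤ (y + N) + (0 * (x + 1 + M) + j' * (y + N) + 0 * j') := by omega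
        _ = 0 * (x + M) + (j' + 1) * (y + N) + 0 * (j' + 1) := by ring

end

end Pool.Agent.OCN
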