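import Pool.Agent.Lib_helper87.OCN.P1eB

/-!
# MP_aeb124_co: phase 1 with exact heights on the right side, the right answers
-/

set_option autoImplicit false

namespace Pool.Agent.OCN

variable {V : Type} {r : V → V → Prop} {K : Finset V} {R : Rep V} {g : ℤ → ℤ} {a b : ℤ}
  {o y N x M n : ℕ}

/-- the counts after an operation: `v` (or `z`) goes from `[1,2]` to `[2,2]` -/
theorem P1sd.mk2 {r' : V → V → Prop} {R' : Rep V} {g' : ℤ → ℤ} {b' : ℤ} {E : V → Prop}
    (h : P1d r K R g (o + 1) y N x M) {w : V} (hw : w ∈ K) (hw1 : g (R.lo w) = 1)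
    (hw2 : g (R.hi w) = 2) (hloc : Loc r' K R') (hg : Hg K R' g' (H1 o y x) A1 B1)
    (hne : ∀ s, Ne g s → Ne g' s) (hlo : g' (R'.lo w) = 2) (hhi : g' (R'.hi w) = 2)
    (ht : ∀ z ∈ K, z ≠ w → g' (R'.lo z) = g (R.lo z) ∧ g' (R'.hi z) = g (R.hi z))
    (hfl : ∀ z ∈ K, g' (R'.lo z) = 1 → g' (R'.hi z) = 2 → ¬ E z → R'.lo z = a ∧ R'.hi z = b')
    (hal : ∀ z ∈ K, a ≤ R'.lo z ∧ R'.hi z ≤ b') :
    P1sd r' K R' g' a b' E o y N x (M + 1) := by
  have hone := fun P => cn_one (P := P) hw ht
  refine ⟨⟨⟨hloc, hg⟩, ?_, ?_, ?_, ?_, hne _ h.n0, hne _ h.n1, hne _ h.n2, hne _ h.n3⟩, hfl, hal⟩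
  · intro z hz
    by_cases hzw : z = w
    · rw [hzw, hlo, hhi]
      omega
    · rw [(ht z hz hzw).1, (ht z hz hzw).2]
      exact h.ty z hz
  · have e1 := hone (fun a b => a = 1 ∧ b = 2)
    have e2 := h.co
    simp only [hlo, hhi, hw1, hw2] at e1
    norm_num at e1
    omega
  · have e1 := hone (fun a b => a = 1 ∧ b = 1)
    have e2 := h.cl
    simp only [hlo, hhi, hw1, hw2] at e1
    norm_num at e1
    omega
  · have e1 := hone (fun a b => a = 2 ∧ b = 2)
    have e2 := h.cr
    simp only [hlo, hhi, hw1, hw2] at e1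
    norm_num at e1
    omega

variable [Fintype V]

/-- the attack `u → v` of an element of the right part or an undecided element on the undecided
element `v`, at the gap `p` -/
theorem P1sd.ansT1 (h : P1sd r K R g a b (fun _ => False) (o + 1) y N x M)
    (hex : Ex K R g b (o + 1 + x)) {u v : V} (huv : u ≠ v) (hu : u ∈ K) (hv : v ∈ K)
    (hu2 : g (R.hi u) = 2) (hv1 : g (R.lo v) = 1) (hv2 : g (R.hi v) = 2) {p : ℤ} (hp : g p = 2)
    (hcu : R.Cr u p) (hcv : R.Cr v p) :
    ∃ (r' : V → V → Prop) (R' : Rep V),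
      P1sd r' K R' (cg g p) a (b + 1) (fun w => w = u) o y N x (M + 1) ∧
      Ex K R' (cg g p) (b + 1) (o + x) ∧ (∀ a b, r a b → r' a b) ∧ r' u v ∧
      newP r r' + (o + x) ≤ K.card ∧ R'.lo u = R.lo u ∧ R'.hi u = p ∧ R'.lo v = p + 1 ∧
      R'.hi v = R.hi u + 1 := by
  classical
  have hm := h.d.st.hg.mono
  obtain ⟨hva, hvb⟩ := h.fl v hv hv1 hv2 fun h => h
  obtain ⟨hau, hub⟩ := h.al u hu
  obtain ⟨hcu1, hcu2⟩ := id hcu
  obtain ⟨hcv1, hcv2⟩ := id hcv
  obtain ⟨r1, R1, k1, k2, k3, k4, k5, k6, k7, k8⟩ := h.d.st.cutE huv hu hv hcu hcv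
  -- lower `v`
  have hq : R1.lo v ≤ R.hi u + 1 := by omega
  have hv1' : R1.hi v = b + 1 := by
    rcases k8 v huv.symm with ⟨h1, h2⟩ | ⟨h1, h2⟩ <;> omega
  obtain ⟨r2, g1, g2, g3⟩ := op_lower k1.loc v hv (R.hi u + 1) hq (by omega)
  obtain ⟨R2, hR2⟩ : ∃ R2, R2 = R1.lower v (R.hi u + 1) hq := ⟨_, rfl⟩
  have hlo : ∀ w, R2.lo w = R1.lo w := fun w => by rw [hR2]; rfl
  have hhi : ∀ w, w ≠ v → R2.hi w = R1.hi w := fun w hw => by
    rw [hR2]; unfold Rep.lower; simp only; rw [if_neg hw]
  have hhiv : R2.hi v = R.hi u + 1 := by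
    rw [hR2]; exact if_pos rfl
  rw [← hR2] at g1
  -- the gaps
  have eu1 : R2.lo u = R.lo u := by
    rw [hlo]
    rcases k7 u huv with ⟨h1, h2⟩ | ⟨h1, h2⟩ <;> omega
  have eu2 : R2.hi u = p := by rw [hhi u huv, k6]
  have ev1 : R2.lo v = p + 1 := by rw [hlo, k5]
  have elo : ∀ w, w ≠ v → (p < R.lo w ∧ R2.lo w = R.lo w + 1) ∨
      (R.lo w ≤ p ∧ R2.lo w = R.lo w) := fun w hw => by
    rw [hlo]
    exact k7 w hw
  have ehi : ∀ w, w ≠ u → w ≠ v → (p ≤ R.hi w ∧ R2.hi w = R.hi w + 1) ∨
      (R.hi w < p ∧ R2.hi w = R.hi w) := fun w hw hw' => by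
    rw [hhi w hw']
    exact k8 w hw
  -- the types
  have tlo : ∀ w, w ≠ v → cg g p (R2.lo w) = g (R.lo w) := fun w hw => by
    rcases elo w hw with ⟨h1, h2⟩ | ⟨h1, h2⟩
    · rw [h2, cg_gt (by omega)]
      congr 1
      ring
    · rw [h2, cg_le h1]
  have thi : ∀ w, w ≠ u → w ≠ v → cg g p (R2.hi w) = g (R.hi w) := fun w hw hw' => by
    rcases ehi w hw hw' with ⟨h1, h2⟩ | ⟨h1, h2⟩
    · rw [h2, cg_gt (by omega)]
      congr 1
      ring
    · rw [h2, cg_le (by omega)]
  have thu : cg g p (R2.hi u) = g (R.hi u) := by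
    rw [eu2, cg_le le_rfl, hp, hu2]
  have tv1 : cg g p (R2.lo v) = 2 := by
    rw [ev1, cg_gt (by omega)]
    rw [show p + 1 - 1 = p by ring]
    exact hp
  have tv2 : cg g p (R2.hi v) = 2 := by
    rw [hhiv, cg_gt (by omega)]
    rw [show R.hi u + 1 - 1 = R.hi u by ring]
    exact hu2
  have hty : ∀ z ∈ K, z ≠ v → cg g p (R2.lo z) = g (R.lo z) ∧ cg g p (R2.hi z) = g (R.hi z) := by
    intro z _ hz
    refine ⟨tlo z hz, ?_⟩
    by_cases hzu : z = u
    · rw [hzu]
      exact thu
    · exact thi z hzu hz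
  have hal : ∀ z ∈ K, a ≤ R2.lo z ∧ R2.hi z ≤ b + 1 := by
    intro z hz
    have h1 := h.al z hz
    constructor
    · by_cases hzv : z = v
      · rw [hzv, ev1]
        omega
      · rcases elo z hzv with h2 | h2 <;> omega
    · by_cases hzv : z = v
      · rw [hzv, hhiv]
        omega
      · by_cases hzu : z = u
        · rw [hzu, eu2]
          omega
        · rcases ehi z hzu hzv with h2 | h2 <;> omega
  -- the heights
  have hdrop : ∀ q, (∃ z ∈ K, R2.Cr z q) → R2.N K q + 1 = R.N K (sh p q) := by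
    rintro q ⟨z0, hz0, hc0⟩
    have hz0' := hal z0 hz0
    obtain ⟨hc1, hc2⟩ := hc0
    have hqa : a ≤ q := by omega
    have hqb : q ≤ b + 1 := by omega
    by_cases hqp : q ≤ p
    · rw [sh_le hqp]
      refine Rep.N_drop (w := v) hv ⟨by omega, by omega⟩ (fun hc => ?_) (fun z hz hzv => ?_)
      · have := hc.1
        omega
      · unfold Rep.Cr
        by_cases hzu : z = u
        · rw [hzu, eu1, eu2]
          constructor <;> rintro ⟨h1, h2⟩ <;> constructor <;> omega
        · rcases elo z hzv with h1 | h1 <;> rcases ehi z hzu hzv with h2 | h2 <;>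
            constructor <;> rintro ⟨h3, h4⟩ <;> constructor <;> omega
    · rw [sh_gt (by omega)]
      by_cases hqu : q - 1 ≤ R.hi u
      · refine Rep.N_drop (w := u) hu ⟨by omega, by omega⟩ (fun hc => ?_) (fun z hz hzu => ?_)
        · have := hc.2
          omega
        · unfold Rep.Cr
          by_cases hzv : z = v
          · rw [hzv, ev1, hhiv]
            constructor <;> rintro ⟨h1, h2⟩ <;> constructor <;> omega
          · rcases elo z hzv with h1 | h1 <;> rcases ehi z hzu hzv with h2 | h2 <;>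
              constructor <;> rintro ⟨h3, h4⟩ <;> constructor <;> omega
      · refine Rep.N_drop (w := v) hv ⟨by omega, by omega⟩ (fun hc => ?_) (fun z hz hzv => ?_)
        · have := hc.2
          omega
        · unfold Rep.Cr
          by_cases hzu : z = u
          · rw [hzu, eu1, eu2]
            constructor <;> rintro ⟨h1, h2⟩ <;> constructor <;> omega
          · rcases elo z hzv with h1 | h1 <;> rcases ehi z hzu hzv with h2 | h2 <;>
              constructor <;> rintro ⟨h3, h4⟩ <;> constructor <;> omega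
  have hg : Hg K R2 (cg g p) (H1 o y x) A1 B1 := by
    refine h.d.hg_of_drop hdrop (fun q hq => ?_) (fun q hq => ?_)
    · refine le_trans (Finset.card_le_card fun w hw => ?_) (k1.hg.uh q hq)
      rw [Finset.mem_filter] at hw ⊢
      refine ⟨hw.1, ?_⟩
      by_cases hwv : w = v
      · exfalso
        rw [hwv] at hw
        unfold A1 at hq
        rw [← hw.2, tv2] at hq
        omega
      · rw [← hhi w hwv]
        exact hw.2
    · refine le_trans (Finset.card_le_card fun w hw => ?_) (k1.hg.ul q hq)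
      rw [Finset.mem_filter] at hw ⊢
      rw [hlo] at hw
      exact hw
  refine ⟨r2, R2, P1sd.mk2 h.d hv hv1 hv2 g1 hg (fun s hs => (ne_cg p).2 hs) tv1 tv2 hty ?_ hal,
    ?_, fun a b hab => g2 a b (k2 a b hab), g2 u v k3, ?_, eu1, eu2, ev1, hhiv⟩
  · intro z hz h1 h2 hzu
    have hzv : z ≠ v := by
      rintro rfl
      omega
    rw [(hty z hz hzv).1] at h1
    rw [(hty z hz hzv).2] at h2
    obtain ⟨h3, h4⟩ := h.fl z hz h1 h2 fun h => h
    rcases elo z hzv with h5 | h5 <;> rcases ehi z hzu hzv with h6 | h6 <;> constructor <;> omega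
  · intro q hq hqb
    by_cases hne : ∃ z ∈ K, R2.Cr z q
    · have h1 := hdrop q hne
      have h2 : g (sh p q) = 2 := (cg_sh g p q).symm.trans hq
      have h3 : sh p q ≤ b := by
        unfold sh
        split_ifs <;> omega
      have := hex _ h2 h3
      omega
    · have : ¬ 1 ≤ R2.N K q := fun h => hne (Rep.N_pos h)
      omega
  · -- the cost
    have h1 : (K.filter fun w => R.hi u + 1 < R1.lo w ∧ R1.lo w ≤ R1.hi v).card ≤ R.U K u := by
      unfold Rep.U
      refine Finset.card_le_card fun w hw => ?_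
      rw [Finset.mem_filter] at hw ⊢
      refine ⟨hw.1, ?_⟩
      unfold Rep.rel
      by_cases hwv : w = v
      · rw [hwv, k5] at hw
        omega
      · rcases k7 w hwv with ⟨h2, h3⟩ | ⟨h2, h3⟩
        · omega
        · omega
    have h2 := newP_trans (r := r) (r' := r1) (r'' := r2)
    have h3 : H1 (o + 1) y x (g p) ≤ R.N K p := h.d.st.hg.ht p ⟨u, hu, hcu⟩
    rw [hp] at h3
    unfold H1 at h3
    rw [if_neg (by norm_num), if_pos rfl] at h3
    omega

/-- the attack `u → v` inside of the right part, `z` is an undecided element -/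
theorem P1sd.ansT2 (h : P1sd r K R g a b (fun _ => False) (o + 1) y N x M)
    (hex : Ex K R g b (o + 1 + x)) {u v z : V} (huv : u ≠ v) (hu : u ∈ K) (hv : v ∈ K)
    (hu1 : g (R.lo u) = 2) (hv1 : g (R.lo v) = 2) (hz : z ∈ K) (hz1 : g (R.lo z) = 1)
    (hz2 : g (R.hi z) = 2) {p : ℤ} (hcu : R.Cr u p) (hcv : R.Cr v p) :
    ∃ (r' : V → V → Prop) (R' : Rep V),
      P1sd r' K R' (cg g p) a (b + 1) (fun _ => False) o y N x (M + 1) ∧
      Ex K R' (cg g p) (b + 1) (o + x) ∧ (∀ a b, r a b → r' a b) ∧ r' u v ∧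
      newP r r' + (o + x) ≤ K.card := by
  classical
  have hm := h.d.st.hg.mono
  obtain ⟨hza, hzb⟩ := h.fl z hz hz1 hz2 fun h => h
  obtain ⟨hau, hub⟩ := h.al u hu
  obtain ⟨hav, hvb⟩ := h.al v hv
  obtain ⟨hcu1, hcu2⟩ := id hcu
  obtain ⟨hcv1, hcv2⟩ := id hcv
  have hzu : z ≠ u := by rintro rfl; omega
  have hzv : z ≠ v := by rintro rfl; omega
  have hu2 : g (R.hi u) = 2 := by
    rcases h.d.ty u hu with h1 | h1 | h1 <;> omega
  have hv2 : g (R.hi v) = 2 := by
    rcases h.d.ty v hv with h1 | h1 | h1 <;> omega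
  have hp : g p = 2 := by
    have h1 := hm hcu1
    have h2 := hm hcu2
    omega
  have halv : a < R.lo v := by
    by_contra hlt
    have := hm (show R.lo v ≤ R.lo z by omega)
    omega
  obtain ⟨r1, R1, k1, k2, k3, k4, k5, k6, k7, k8⟩ := h.d.st.cutE huv hu hv hcu hcv
  have hz1' : R1.lo z = a := by
    rcases k7 z hzv with ⟨h1, h2⟩ | ⟨h1, h2⟩ <;> omega
  have hz2' : R1.hi z = b + 1 := by
    rcases k8 z hzu with ⟨h1, h2⟩ | ⟨h1, h2⟩ <;> omega
  -- raise `z`
  obtain ⟨r2, g1, g2, g3⟩ := op_raise k1.loc z hz (R.lo v) (by omega) (by omega)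
  obtain ⟨R2, hR2⟩ : ∃ R2, R2 = R1.raise z (R.lo v) (by omega) := ⟨_, rfl⟩
  have hlo2 : ∀ w, w ≠ z → R2.lo w = R1.lo w := fun w hw => by
    rw [hR2]; exact if_neg hw
  have hlo2z : R2.lo z = R.lo v := by rw [hR2]; exact if_pos rfl
  have hhi2 : ∀ w, R2.hi w = R1.hi w := fun w => by rw [hR2]; rfl
  rw [← hR2] at g1
  -- lower `z`
  have hq : R2.lo z ≤ R.hi u + 1 := by omega
  have hq' : R.hi u + 1 ≤ R2.hi z := by rw [hhi2]; omega
  obtain ⟨r3, f1, f2, f3⟩ := op_lower g1 z hz (R.hi u + 1) hq hq'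
  obtain ⟨R3, hR3⟩ : ∃ R3, R3 = R2.lower z (R.hi u + 1) hq := ⟨_, rfl⟩
  have hlo3 : ∀ w, R3.lo w = R2.lo w := fun w => by rw [hR3]; rfl
  have hhi3 : ∀ w, w ≠ z → R3.hi w = R2.hi w := fun w hw => by
    rw [hR3]; unfold Rep.lower; simp only; rw [if_neg hw]
  have ez2 : R3.hi z = R.hi u + 1 := by
    rw [hR3]; exact if_pos rfl
  rw [← hR3] at f1
  have ez1 : R3.lo z = R.lo v := by rw [hlo3, hlo2z]
  have eu1 : R3.lo u = R.lo u := by
    rw [hlo3, hlo2 u hzu.symm]
    rcases k7 u huv with ⟨h1, h2⟩ | ⟨h1, h2⟩ <;> omega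
  have eu2 : R3.hi u = p := by rw [hhi3 u hzu.symm, hhi2, k6]
  have ev1 : R3.lo v = p + 1 := by rw [hlo3, hlo2 v hzv.symm, k5]
  have ev2 : R3.hi v = R.hi v + 1 := by
    rw [hhi3 v hzv.symm, hhi2]
    rcases k8 v huv.symm with ⟨h1, h2⟩ | ⟨h1, h2⟩ <;> omega
  have elo : ∀ w, w ≠ v → w ≠ z → (p < R.lo w ∧ R3.lo w = R.lo w + 1) ∨
      (R.lo w ≤ p ∧ R3.lo w = R.lo w) := fun w hw hw' => by
    rw [hlo3, hlo2 w hw']
    exact k7 w hw
  have ehi : ∀ w, w ≠ u → w ≠ z → (p ≤ R.hi w ∧ R3.hi w = R.hi w + 1) ∨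
      (R.hi w < p ∧ R3.hi w = R.hi w) := fun w hw hw' => by
    rw [hhi3 w hw', hhi2]
    exact k8 w hw
  -- the types
  have tlo : ∀ w, w ≠ v → w ≠ z → cg g p (R3.lo w) = g (R.lo w) := fun w hw hw' => by
    rcases elo w hw hw' with ⟨h1, h2⟩ | ⟨h1, h2⟩
    · rw [h2, cg_gt (by omega)]
      congr 1
      ring
    · rw [h2, cg_le h1]
  have thi : ∀ w, w ≠ u → w ≠ z → cg g p (R3.hi w) = g (R.hi w) := fun w hw hw' => by
    rcases ehi w hw hw' with ⟨h1, h2⟩ | ⟨h1, h2⟩
    · rw [h2, cg_gt (by omega)]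
      congr 1
      ring
    · rw [h2, cg_le (by omega)]
  have tz1 : cg g p (R3.lo z) = 2 := by rw [ez1, cg_le hcv1, hv1]
  have tz2 : cg g p (R3.hi z) = 2 := by
    rw [ez2, cg_gt (by omega)]
    rw [show R.hi u + 1 - 1 = R.hi u by ring]
    exact hu2
  have hty : ∀ w ∈ K, w ≠ z → cg g p (R3.lo w) = g (R.lo w) ∧ cg g p (R3.hi w) = g (R.hi w) := by
    intro w _ hw
    constructor
    · by_cases hwv : w = v
      · rw [hwv, ev1, cg_gt (by omega), show p + 1 - 1 = p by ring, hp, hv1]
      · exact tlo w hwv hw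
    · by_cases hwu : w = u
      · rw [hwu, eu2, cg_le le_rfl, hp, hu2]
      · exact thi w hwu hw
  have hal : ∀ w ∈ K, a ≤ R3.lo w ∧ R3.hi w ≤ b + 1 := by
    intro w hw
    have h1 := h.al w hw
    by_cases hwz : w = z
    · rw [hwz, ez1, ez2]
      omega
    · constructor
      · by_cases hwv : w = v
        · rw [hwv, ev1]
          omega
        · rcases elo w hwv hwz with h2 | h2 <;> omega
      · by_cases hwu : w = u
        · rw [hwu, eu2]
          omega
        · rcases ehi w hwu hwz with h2 | h2 <;> omega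
  -- the heights
  have hdrop : ∀ q, (∃ w ∈ K, R3.Cr w q) → R3.N K q + 1 = R.N K (sh p q) := by
    rintro q ⟨z0, hz0, hc0⟩
    have hz0' := hal z0 hz0
    obtain ⟨hc1, hc2⟩ := hc0
    have hqa : a ≤ q := by omega
    have hqb : q ≤ b + 1 := by omega
    -- the crossing relation of all elements except `u`, `v`, `z`
    have hgen : ∀ w, w ≠ u → w ≠ v → w ≠ z → (R3.Cr w q ↔ R.Cr w (sh p q)) := by
      intro w hwu hwv hwz
      unfold Rep.Cr sh
      rcases elo w hwv hwz with h1 | h1 <;> rcases ehi w hwu hwz with h2 | h2 <;>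
        split_ifs <;> constructor <;> rintro ⟨h3, h4⟩ <;> constructor <;> omega
    by_cases hqp : q ≤ p
    · by_cases hqv : R.lo v ≤ q
      · refine Rep.N_drop (w := v) hv ?_ (fun hc => ?_) (fun w hw hwv => ?_)
        · rw [sh_le hqp]
          exact ⟨by omega, by omega⟩
        · have := hc.1
          omega
        · by_cases hwu : w = u
          · rw [sh_le hqp, hwu]
            unfold Rep.Cr
            rw [eu1, eu2]
            constructor <;> rintro ⟨h1, h2⟩ <;> constructor <;> omega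
          · by_cases hwz : w = z
            · rw [sh_le hqp, hwz]
              unfold Rep.Cr
              rw [ez1, ez2]
              constructor <;> rintro ⟨h1, h2⟩ <;> constructor <;> omega
            · exact hgen w hwu hwv hwz
      · refine Rep.N_drop (w := z) hz ?_ (fun hc => ?_) (fun w hw hwz => ?_)
        · rw [sh_le hqp]
          exact ⟨by omega, by omega⟩
        · have := hc.1
          omega
        · by_cases hwu : w = u
          · rw [sh_le hqp, hwu]
            unfold Rep.Cr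
            rw [eu1, eu2]
            constructor <;> rintro ⟨h1, h2⟩ <;> constructor <;> omega
          · by_cases hwv : w = v
            · rw [sh_le hqp, hwv]
              unfold Rep.Cr
              rw [ev1]
              constructor <;> rintro ⟨h1, h2⟩ <;> constructor <;> omega
            · exact hgen w hwu hwv hwz
    · by_cases hqu : q - 1 ≤ R.hi u
      · refine Rep.N_drop (w := u) hu ?_ (fun hc => ?_) (fun w hw hwu => ?_)
        · rw [sh_gt (by omega)]
          exact ⟨by omega, by omega⟩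
        · have := hc.2
          omega
        · by_cases hwv : w = v
          · rw [sh_gt (by omega), hwv]
            unfold Rep.Cr
            rw [ev1, ev2]
            constructor <;> rintro ⟨h1, h2⟩ <;> constructor <;> omega
          · by_cases hwz : w = z
            · rw [sh_gt (by omega), hwz]
              unfold Rep.Cr
              rw [ez1, ez2]
              constructor <;> rintro ⟨h1, h2⟩ <;> constructor <;> omega
            · exact hgen w hwu hwv hwz
      · refine Rep.N_drop (w := z) hz ?_ (fun hc => ?_) (fun w hw hwz => ?_)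
        · rw [sh_gt (by omega)]
          exact ⟨by omega, by omega⟩
        · have := hc.2
          omega
        · by_cases hwu : w = u
          · rw [sh_gt (by omega), hwu]
            unfold Rep.Cr
            rw [eu1, eu2]
            constructor <;> rintro ⟨h1, h2⟩ <;> constructor <;> omega
          · by_cases hwv : w = v
            · rw [sh_gt (by omega), hwv]
              unfold Rep.Cr
              rw [ev1, ev2]
              constructor <;> rintro ⟨h1, h2⟩ <;> constructor <;> omega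
            · exact hgen w hwu hwv hwz
  have hg : Hg K R3 (cg g p) (H1 o y x) A1 B1 := by
    refine h.d.hg_of_drop hdrop (fun q hq => ?_) (fun q hq => ?_)
    · refine le_trans (Finset.card_le_card fun w hw => ?_) (k1.hg.uh q hq)
      rw [Finset.mem_filter] at hw ⊢
      refine ⟨hw.1, ?_⟩
      by_cases hwz : w = z
      · exfalso
        rw [hwz] at hw
        unfold A1 at hq
        rw [← hw.2, tz2] at hq
        omega
      · rw [← hhi2, ← hhi3 w hwz]
        exact hw.2
    · -- the starts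
      by_cases hqv : q = R.lo v
      · have h1 := h.d.st.hg.ul q (by
          unfold B1 at hq ⊢
          rw [cg_le (by omega), cg_le (by omega)] at hq
          exact hq)
        have h2 : (K.filter fun w => R3.lo w = q) ⊆ {z} := by
          intro w hw
          rw [Finset.mem_filter] at hw
          rw [Finset.mem_singleton]
          by_contra hwz
          have hwv : w ≠ v := by
            rintro rfl
            omega
          have hwq : R.lo w = q := by
            rcases elo w hwv hwz with h3 | h3 <;> omega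
          have h3 : ({w, v} : Finset V) ⊆ K.filter fun z => R.lo z = q := by
            intro w' hw'
            rw [Finset.mem_insert, Finset.mem_singleton] at hw'
            rw [Finset.mem_filter]
            rcases hw' with rfl | rfl
            · exact ⟨hw.1, hwq⟩
            · exact ⟨hv, hqv.symm⟩
          have h4 := Finset.card_le_card h3
          rw [Finset.card_pair hwv] at h4
          omega
        exact (Finset.card_le_card h2).trans (by rw [Finset.card_singleton])
      · refine le_trans (Finset.card_le_card fun w hw => ?_) (k1.hg.ul q hq)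
        rw [Finset.mem_filter] at hw ⊢
        refine ⟨hw.1, ?_⟩
        by_cases hwz : w = z
        · exfalso
          rw [hwz, ez1] at hw
          exact hqv hw.2.symm
        · rw [← hlo2 w hwz, ← hlo3]
          exact hw.2
  refine ⟨r3, R3, P1sd.mk2 h.d hz hz1 hz2 f1 hg (fun s hs => (ne_cg p).2 hs) tz1 tz2 hty ?_ hal,
    ?_, fun a b hab => f2 a b (g2 a b (k2 a b hab)), f2 u v (g2 u v k3), ?_⟩
  · intro w hw h1 h2 _
    have hwz : w ≠ z := by
      rintro rfl
      omega
    rw [(hty w hw hwz).1] at h1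
    rw [(hty w hw hwz).2] at h2
    have hwu : w ≠ u := by rintro rfl; omega
    have hwv : w ≠ v := by rintro rfl; omega
    obtain ⟨h3, h4⟩ := h.fl w hw h1 h2 fun h => h
    rcases elo w hwv hwz with h5 | h5 <;> rcases ehi w hwu hwz with h6 | h6 <;>
      constructor <;> omega
  · intro q hq hqb
    by_cases hne : ∃ w ∈ K, R3.Cr w q
    · have h1 := hdrop q hne
      have h2 : g (sh p q) = 2 := (cg_sh g p q).symm.trans hq
      have h3 : sh p q ≤ b := by
        unfold sh
        split_ifs <;> omega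
      have := hex _ h2 h3
      omega
    · have : ¬ 1 ≤ R3.N K q := fun h => hne (Rep.N_pos h)
      omega
  · -- the cost
    have h1 : (K.filter fun w => R1.lo z ≤ R1.hi w ∧ R1.hi w < R.lo v).card ≤ R.D K v := by
      unfold Rep.D
      refine Finset.card_le_card fun w hw => ?_
      rw [Finset.mem_filter] at hw ⊢
      refine ⟨hw.1, ?_⟩
      unfold Rep.rel
      by_cases hwu : w = u
      · rw [hwu, k6] at hw
        omega
      · rcases k8 w hwu with ⟨h2, h3⟩ | ⟨h2, h3⟩
        · omega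
        · omega
    have h1' : (K.filter fun w => R.hi u + 1 < R2.lo w ∧ R2.lo w ≤ R2.hi z).card ≤ R.U K u := by
      unfold Rep.U
      refine Finset.card_le_card fun w hw => ?_
      rw [Finset.mem_filter] at hw ⊢
      refine ⟨hw.1, ?_⟩
      unfold Rep.rel
      by_cases hwz : w = z
      · rw [hwz, hlo2z] at hw
        omega
      · rw [hlo2 w hwz] at hw
        by_cases hwv : w = v
        · rw [hwv, k5] at hw
          omega
        · rcases k7 w hwv with ⟨h2, h3⟩ | ⟨h2, h3⟩
          · omega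
          · omega
    have h2 := newP_trans (r := r) (r' := r1) (r'' := r2)
    have h2' := newP_trans (r := r) (r' := r2) (r'' := r3)
    have h3 : H1 (o + 1) y x (g p) ≤ R.N K p := h.d.st.hg.ht p ⟨u, hu, hcu⟩
    rw [hp] at h3
    unfold H1 at h3
    rw [if_neg (by norm_num), if_pos rfl] at h3
    omega

end Pool.Agent.OCN
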