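import Pool.Agent.Lib_helper68.OCN.YcJ0

/-!
# MP_aeb124_co: the number game, the entry

The start position of the number game belongs to the class `CL` (or to the class without
conversions).
-/

set_option autoImplicit false

namespace Pool.Agent.OCN.YC

/-- the reserves: `K` is small against `Q / den` -/
theorem E_K {den R0 Q : ℕ} (hd : 1 ≤ den) (hR : R0 = 10000 * den)
    (hQ : R0 * (R0 + 12) ≤ Q) :
    5000 * (den * (kap Q R0 + 11)) ≤ Q ∧ kap Q R0 + 11 ≤ Q ∧ 10012 ≤ kap Q R0 + 11 := by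
  have hR0 : 10000 ≤ R0 := by omega
  have h1 : R0 * (Q / R0) ≤ Q := Nat.mul_div_le Q R0
  have h2 : R0 * (kap Q R0 + 11) ≤ 2 * Q := by
    have e : R0 * (kap Q R0 + 11) = R0 * (R0 + 12) + R0 * (Q / R0) := by
      unfold kap
      ring
    omega
  have h3 : 5000 * (den * (kap Q R0 + 11)) * 2 = R0 * (kap Q R0 + 11) := by
    rw [hR]
    ring
  refine ⟨by omega, ?_, ?_⟩
  · have h4 : 2 * (kap Q R0 + 11) ≤ R0 * (kap Q R0 + 11) := Nat.mul_le_mul_right _ (by omega)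
    omega
  · unfold kap
    generalize Q / R0 = s
    omega

/-- the parameters of the entry -/
def EP (W nl f Q R0 : ℕ) (h1 : 40 ≤ R0) (h2 : kap Q R0 + 11 ≤ Q) : Par where
  W := W
  nl := nl
  f := max f 1
  Q := Q
  R0 := R0
  K := kap Q R0 + 11
  hR := h1
  hK := le_rfl
  hKQ := h2

/-- the virtual data of the entry -/
def EV (W D n : ℕ) : Vd where
  E := W
  m := D
  w := 0
  c := 0
  z := 0
  n := n
  d := 0
  p := 0
  X := 0
  md := true

theorem E_rp (f W D n : ℕ) : Rp f (EV W D n) (Multiset.replicate (D + n) 0) := by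
  refine ⟨Multiset.replicate D 0, Multiset.replicate n 0, ?_, ?_, ?_, ?_, ?_, ?_, ?_⟩
  · rw [Multiset.replicate_add]
  · intro j hj
    rw [Multiset.eq_of_mem_replicate hj]
    exact Nat.zero_le _
  · rw [Multiset.card_replicate]
    exact le_rfl
  · show Multiset.card (Multiset.filter _ (Multiset.replicate D 0)) + 0 ≤ D
    rw [add_zero]
    refine (Multiset.card_le_card (Multiset.filter_le _ _)).trans ?_
    rw [Multiset.card_replicate]
  · rw [Multiset.card_replicate]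
    exact le_rfl
  · intro _
    constructor
    · have : Multiset.filter (fun j => (EV W D n).d + 1 ≤ j) (Multiset.replicate n 0) = 0 := by
        rw [Multiset.filter_eq_nil]
        intro a ha
        rw [Multiset.eq_of_mem_replicate ha]
        exact Nat.not_succ_le_zero _
      rw [this, Multiset.card_zero]
      exact Nat.zero_le _
    · rw [ex_replicate, Nat.zero_sub, Nat.mul_zero]
      exact Nat.zero_le _
  · intro h
    exact absurd h (by simp [EV])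

/-- the arithmetic of the entry: the linear condition -/
theorem E_lin {den Q K f D n : ℕ} (hd : 1 ≤ den) (hK : 5000 * (den * K) ≤ Q) (hK1 : 10012 ≤ K)
    (h : den * (3 * f + D) + Q ≤ den * (2 * n)) :
    3 * max f 1 + D + 4 * K + 100 ≤ 2 * n := by
  by_contra hcon
  rw [not_le] at hcon
  have h1 : 2 * n ≤ 3 * f + 3 + D + 4 * K + 100 := by
    have : max f 1 ≤ f + 1 := by omega
    omega
  have h2 : den * (2 * n) ≤ den * (3 * f + 3 + D + 4 * K + 100) := Nat.mul_le_mul_left _ h1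
  have h3 : den * (3 * f + 3 + D + 4 * K + 100) =
      den * (3 * f + D) + den * 103 + 4 * (den * K) := by ring
  have h4 : den * 10012 ≤ den * K := Nat.mul_le_mul_left _ hK1
  omega

/-- the arithmetic of the entry: the potentials. All the inequalities follow from the second one. -/
theorem E_pot {den Q K o W f D n : ℕ} (hd : 1 ≤ den) (hK : 5000 * (den * K) ≤ Q)
    (hK1 : 10012 ≤ K) (hoQ : o ≤ Q) (hfD : f ≤ D) (hD : 1 ≤ D) (hDQ : D ≤ Q)
    (hV : (den : ℤ) * (2 * (2 * ((o : ℤ) * W) + 4 * (f : ℤ) ^ 2 + 2 * (((D : ℤ) - f) * n)) +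
      ((D : ℤ) - f) ^ 2) + (Q : ℤ) ^ 2 ≤ den * (2 * (o : ℤ) ^ 2))
    (hH : (den : ℤ) * (2 * (2 * ((o : ℤ) * W)) + (11 * (f : ℤ) ^ 2 + 2 * (3 * (f * ((D : ℤ) - f))) +
      2 * ((D : ℤ) - f) ^ 2)) + (Q : ℤ) ^ 2 ≤ den * (2 * (o : ℤ) ^ 2)) :
    256 * ((K : ℤ) * o) + 800 * ((K : ℤ) * Q) + 8 * ((K : ℤ) + 20) ≤
        4 * (o : ℤ) ^ 2 - 8 * (o * W) - (16 * ((max f 1 : ℕ) : ℤ) ^ 2 +
          2 * ((D : ℤ) - (max f 1 : ℕ)) ^ 2) - 8 * (n * ((D : ℤ) - (max f 1 : ℕ))) ∧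
      256 * ((K : ℤ) * o) + 800 * ((K : ℤ) * Q) ≤
        4 * (o : ℤ) ^ 2 - 8 * (o * W) - (16 * ((max f 1 : ℕ) : ℤ) ^ 2 +
          2 * ((D : ℤ) - (max f 1 : ℕ)) ^ 2) -
          (6 * (D : ℤ) ^ 2 - 4 * ((D : ℤ) - (max f 1 : ℕ)) ^ 2 + 64 * D) ∧
      80 * ((K : ℤ) * o) + 240 * ((K : ℤ) * Q) ≤ 4 * (o : ℤ) ^ 2 - 8 * (o * W) := by
  have hd' : (1 : ℤ) ≤ den := by exact_mod_cast hd
  have hK' : 5000 * ((den : ℤ) * K) ≤ Q := by exact_mod_cast hK
  have hK1' : (10012 : ℤ) ≤ K := by exact_mod_cast hK1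
  have hoQ' : (o : ℤ) ≤ Q := by exact_mod_cast hoQ
  have hfD' : (f : ℤ) ≤ D := by exact_mod_cast hfD
  have hD' : (1 : ℤ) ≤ D := by exact_mod_cast hD
  have hDQ' : (D : ℤ) ≤ Q := by exact_mod_cast hDQ
  have ho0 : (0 : ℤ) ≤ o := Int.natCast_nonneg o
  have hf0 : (0 : ℤ) ≤ f := Int.natCast_nonneg f
  have hn0 : (0 : ℤ) ≤ n := Int.natCast_nonneg n
  have hQ0 : (1 : ℤ) ≤ Q := hD'.trans hDQ'
  -- the main estimate
  have hKQ : 5000 * ((den : ℤ) * (K * Q)) ≤ (Q : ℤ) ^ 2 := by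
    have := mul_le_mul_of_nonneg_right hK' (show (0 : ℤ) ≤ Q by linarith)
    nlinarith
  have hKo : (K : ℤ) * o ≤ K * Q := mul_le_mul_of_nonneg_left hoQ' (by linarith)
  have hKQ1 : 10012 * (Q : ℤ) ≤ K * Q := mul_le_mul_of_nonneg_right hK1' (by linarith)
  have hK2 : (K : ℤ) ≤ K * Q := by
    have := mul_le_mul_of_nonneg_left hQ0 (show (0 : ℤ) ≤ K by linarith)
    linarith
  set F : ℤ := ((max f 1 : ℕ) : ℤ) with hF
  have hFcase : F = f ∨ ((f : ℤ) = 0 ∧ F = 1) := by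
    rw [hF]
    rcases Nat.eq_zero_or_pos f with h0 | h1
    · right
      subst h0
      simp
    · left
      rw [max_eq_left h1]
  have key : ∀ S T : ℤ, (den : ℤ) * S + (Q : ℤ) ^ 2 ≤ den * (2 * (o : ℤ) ^ 2) →
      T ≤ 2 * (5000 * ((K : ℤ) * Q)) → T ≤ 4 * (o : ℤ) ^ 2 - 2 * S := by
    intro S T h1 h2
    have h3 : (den : ℤ) * T ≤ den * (4 * (o : ℤ) ^ 2 - 2 * S) := by
      have h4 := mul_le_mul_of_nonneg_left h2 (show (0 : ℤ) ≤ den by linarith)
      linarith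
    exact le_of_mul_le_mul_left h3 (by linarith)
  refine ⟨?_, ?_, ?_⟩
  · have h1 := key _ (256 * ((K : ℤ) * o) + 800 * ((K : ℤ) * Q) + 8 * ((K : ℤ) + 20) + 32) hV
      (by linarith)
    rcases hFcase with h | ⟨h0, h⟩
    · rw [h]
      linarith
    · rw [h]
      rw [h0] at h1
      have h5 : (0 : ℤ) ≤ n * 1 := by linarith
      nlinarith
  · have h1 := key _ (256 * ((K : ℤ) * o) + 800 * ((K : ℤ) * Q) + 64 * D + 16 * D + 32) hH
      (by linarith)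
    rcases hFcase with h | ⟨h0, h⟩
    · rw [h]
      nlinarith
    · rw [h]
      rw [h0] at h1
      nlinarith
  · have h2 : (0 : ℤ) ≤ 11 * (f : ℤ) ^ 2 + 2 * (3 * (f * ((D : ℤ) - f))) + 2 * ((D : ℤ) - f) ^ 2 := by
      have : (0 : ℤ) ≤ f * ((D : ℤ) - f) := mul_nonneg hf0 (by linarith)
      positivity
    have h1 := key _ (80 * ((K : ℤ) * o) + 240 * ((K : ℤ) * Q)) hH (by linarith)
    linarith

/-- the start position, at least one level is missing -/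
theorem E_CL {den Q R0 W nl o μ n f D : ℕ} (hd : 1 ≤ den) (hR : R0 = 10000 * den)
    (hQ : R0 * (R0 + 12) ≤ Q) (h40 : 40 ≤ R0) (hKQ : kap Q R0 + 11 ≤ Q)
    (ho : o ≤ Q) (hc : D + n ≤ Q) (hWo : W ≤ o) (hD : D + μ = W) (hD1 : 1 ≤ D) (hfD : f ≤ D)
    (hfn : f ≤ nl) (hlin : den * (3 * f + D) + Q ≤ den * (2 * n))
    (hV : (den : ℤ) * (2 * (2 * ((o : ℤ) * W) + 4 * (f : ℤ) ^ 2 + 2 * (((D : ℤ) - f) * n)) +
      ((D : ℤ) - f) ^ 2) + (Q : ℤ) ^ 2 ≤ den * (2 * (o : ℤ) ^ 2))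
    (hH : (den : ℤ) * (2 * (2 * ((o : ℤ) * W)) + (11 * (f : ℤ) ^ 2 + 2 * (3 * (f * ((D : ℤ) - f))) +
      2 * ((D : ℤ) - f) ^ 2)) + (Q : ℤ) ^ 2 ≤ den * (2 * (o : ℤ) ^ 2)) :
    CL (EP W nl f Q R0 h40 hKQ) ⟨o, 0, 0, 0, μ, 1, 0, Multiset.replicate (D + n) 0⟩
      (EV W D n) := by
  obtain ⟨hK, -, hK1⟩ := E_K hd hR hQ
  have hl := E_lin hd hK hK1 hlin
  obtain ⟨pV, pH', pP'⟩ := E_pot hd hK hK1 ho hfD hD1 (by omega) hV hH
  have hF1 : 1 ≤ max f 1 := le_max_right _ _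
  have hFD : max f 1 ≤ D := max_le hfD hD1
  have hF0 : (1 : ℤ) ≤ ((max f 1 : ℕ) : ℤ) := by exact_mod_cast hF1
  have hFD' : ((max f 1 : ℕ) : ℤ) ≤ D := by exact_mod_cast hFD
  have hDz : (1 : ℤ) ≤ D := by exact_mod_cast hD1
  have m1 : max (0 : ℤ) (0 + D - (max f 1 : ℕ)) = D - (max f 1 : ℕ) := by
    rw [zero_add]
    exact max_eq_right (by linarith)
  have m2 : max (0 : ℤ) (D - 0) = D := by
    rw [sub_zero]
    exact max_eq_right (by linarith)
  have m3 : max (0 : ℤ) (0 - (max f 1 : ℕ) - D) = 0 := max_eq_left (by linarith)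
  have m4 : max (0 : ℤ) (0 - (max f 1 : ℕ)) = 0 := max_eq_left (by linarith)
  have m5 : min (0 : ℤ) (max f 1 : ℕ) = 0 := min_eq_left (by linarith)
  have eT : T4 (EP W nl f Q R0 h40 hKQ) o =
      256 * (((kap Q R0 + 11 : ℕ) : ℤ) * o) + 800 * (((kap Q R0 + 11 : ℕ) : ℤ) * Q) := rfl
  have ePsi : Psi (EP W nl f Q R0 h40 hKQ) o 0 (EV W D n) =
      4 * (o : ℤ) ^ 2 - 8 * (o * W) - (16 * ((max f 1 : ℕ) : ℤ) ^ 2 +
          2 * ((D : ℤ) - (max f 1 : ℕ)) ^ 2) -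
          (6 * (D : ℤ) ^ 2 - 4 * ((D : ℤ) - (max f 1 : ℕ)) ^ 2 + 64 * D) := by
    unfold Psi pQ pS pH
    simp only [EV, EP, Nat.cast_zero, m1, m2, m3]
    ring
  have eVee : Vee (EP W nl f Q R0 h40 hKQ) o 0 (EV W D n) =
      4 * (o : ℤ) ^ 2 - 8 * (o * W) - (16 * ((max f 1 : ℕ) : ℤ) ^ 2 +
          2 * ((D : ℤ) - (max f 1 : ℕ)) ^ 2) - 8 * (n * ((D : ℤ) - (max f 1 : ℕ))) := by
    unfold Vee pQ pS pA
    simp only [EV, EP, Nat.cast_zero, m1]
    ring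
  have ePee : Pee (EP W nl f Q R0 h40 hKQ) o 0 (EV W D n) =
      4 * (o : ℤ) ^ 2 - 8 * (o * W) + 4 * (D : ℤ) ^ 2 := by
    unfold Pee pQ pP
    simp only [EV, EP, Nat.cast_zero, m4, m5]
    ring
  refine ⟨⟨?_, rfl, Nat.zero_le _, ?_, ?_, ?_, ?_, ?_⟩, rfl, ?_⟩
  · exact
      { hf := hF1
        hnl := (max_le (hfn.trans (Nat.le_succ _)) (Nat.le_add_left _ _) : max f 1 ≤ nl + 1)
        hm := hD
        hμ := (by omega : μ ≤ W)
        hw := Nat.zero_le _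
        hz := Nat.zero_le _
        hz0 := Or.inl rfl
        hA := fun _ => ⟨le_rfl, Nat.zero_le _, (by rw [show (EV W D n).d + (EV W D n).m = 0 + D from rfl, zero_add]; exact hFD), Nat.zero_le _, Or.inl rfl⟩
        hH := fun h => absurd h (by simp [EV])
        hn := (by
          show 3 * max f 1 + 0 + D + 4 * (kap Q R0 + 11) + 100 ≤ 2 * n
          omega)
        hN := (by
          show n + 0 + W + o ≤ 4 * Q
          omega)
        ho := ho
        hE := (by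
          show W ≤ 0 + W
          omega)
        hW := (by
          show W ≤ 0 + μ + Multiset.card (Multiset.replicate (D + n) 0)
          rw [Multiset.card_replicate]
          omega)
        hR := E_rp _ W D n }
  · show 0 ≤ max f 1 + D + 13
    exact Nat.zero_le _
  · show (0 + 1) * (0 - (max f 1 + D)) + 0 ≤ 12 * (0 + 1) + 0
    omega
  · rw [eT, ePsi]
    have : al (EP W nl f Q R0 h40 hKQ).f (EV W D n) = 0 := by
      unfold al
      exact if_pos rfl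
    rw [this]
    push_cast at pH' ⊢
    linarith
  · intro _
    rw [eT, eVee]
    have h1 : al (EP W nl f Q R0 h40 hKQ).f (EV W D n) = 0 := by
      unfold al
      exact if_pos rfl
    have h2 : nd (EV W D n) ((EV W D n).c + (EP W nl f Q R0 h40 hKQ).K + 20) =
        8 * (((kap Q R0 + 11 : ℕ) : ℤ) + 20) := by
      unfold nd
      simp only [EV, EP, Nat.cast_zero, mul_zero, add_zero, zero_add, sub_zero]
      rw [max_eq_right (by positivity)]
    rw [h1, h2]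
    push_cast at pV ⊢
    linarith
  · intro _
    rw [ePee]
    have : TP (EP W nl f Q R0 h40 hKQ) o (EV W D n) =
        80 * (((kap Q R0 + 11 : ℕ) : ℤ) * o) + 240 * (((kap Q R0 + 11 : ℕ) : ℤ) * Q) := by
      unfold TP
      simp only [EV, EP, Nat.cast_zero]
      ring
    rw [this]
    have : (0 : ℤ) ≤ 4 * (D : ℤ) ^ 2 := by positivity
    push_cast at pP' ⊢
    linarith
  · show μ + 1 ≤ W
    omega

/-- the start position, no level is missing -/
theorem E_ZS {den Q R0 W o μ c : ℕ} (hd : 1 ≤ den) (hR : R0 = 10000 * den)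
    (hQ : R0 * (R0 + 12) ≤ Q) (ho : o ≤ Q) (hD : W ≤ μ)
    (hH : (den : ℤ) * (2 * (2 * ((o : ℤ) * W))) + (Q : ℤ) ^ 2 ≤ den * (2 * (o : ℤ) ^ 2)) :
    ZS W Q R0 0 ⟨o, 0, 0, 0, μ, 1, 0, Multiset.replicate c 0⟩ := by
  obtain ⟨hK, -, hK1⟩ := E_K hd hR hQ
  obtain ⟨K, hKdef⟩ : ∃ K, K = kap Q R0 + 11 := ⟨_, rfl⟩
  rw [← hKdef] at hK hK1
  have hd' : (1 : ℤ) ≤ den := by exact_mod_cast hd
  have hK' : 5000 * ((den : ℤ) * K) ≤ Q := by exact_mod_cast hK
  have hK1' : (10012 : ℤ) ≤ K := by exact_mod_cast hK1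
  have hoQ' : (o : ℤ) ≤ Q := by exact_mod_cast ho
  have ho0 : (0 : ℤ) ≤ o := Int.natCast_nonneg o
  have hW0 : (0 : ℤ) ≤ W := Int.natCast_nonneg W
  have hQ0 : (0 : ℤ) ≤ Q := ho0.trans hoQ'
  have hKQ : 5000 * ((den : ℤ) * (K * Q)) ≤ (Q : ℤ) ^ 2 := by
    have := mul_le_mul_of_nonneg_right hK' hQ0
    nlinarith
  have hKo : (K : ℤ) * o ≤ K * Q := mul_le_mul_of_nonneg_left hoQ' (by linarith)
  have hKQ1 : 10012 * (Q : ℤ) ≤ K * Q := mul_le_mul_of_nonneg_right hK1' hQ0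
  have hmain : 2500 * ((K : ℤ) * Q) ≤ (o : ℤ) ^ 2 - 2 * (o * W) := by
    have h3 : (den : ℤ) * (2500 * ((K : ℤ) * Q)) ≤ den * ((o : ℤ) ^ 2 - 2 * (o * W)) := by
      nlinarith
    exact le_of_mul_le_mul_left h3 (by linarith)
  have hQpos : 1 ≤ Q := by
    have : 5000 * (1 * 10012) ≤ 5000 * (den * K) :=
      Nat.mul_le_mul_left _ (Nat.mul_le_mul hd hK1)
    omega
  have hQ1 : (1 : ℤ) ≤ Q := by exact_mod_cast hQpos
  have hprod : 0 ≤ (o : ℤ) * W := mul_nonneg ho0 hW0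
  have ho2 : 2 ≤ o := by
    by_contra hcon
    have h1 : o ≤ 1 := by omega
    have h2 : (o : ℤ) ≤ 1 := by exact_mod_cast h1
    nlinarith
  left
  refine ⟨rfl, rfl, 0, ?_⟩
  have hex : ex 0 (Multiset.replicate c 0) = 0 := by
    rw [ex_replicate, Nat.sub_self, Nat.mul_zero]
  refine { hE := (by simpa using hD), hQ := ho, hF := ?_, mg := (by simpa using ho2), gx := ?_, hP := ?_ }
  · intro j hj
    exact (Multiset.eq_of_mem_replicate hj).le
  · show 4 * ex 0 (Multiset.replicate c 0) ≤ _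
    rw [hex]
    exact Nat.zero_le _
  · show bz Q R0 (W - 0) o 0 ≤ pz 0 (W - 0) o 0 (ex 0 (Multiset.replicate c 0)) 0
    rw [hex, Nat.sub_zero]
    unfold bz pz kK
    have h1 : (if W = 0 then 2 * ((o : ℤ) * (0 : ℕ)) else 2 * ((Q : ℤ) * kap Q R0)) ≤
        2 * (K * Q) := by
      have hk : ((kap Q R0 : ℕ) : ℤ) ≤ K := by
        rw [hKdef]
        push_cast
        linarith
      have h2 : (Q : ℤ) * kap Q R0 ≤ Q * K := mul_le_mul_of_nonneg_left hk hQ0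
      split_ifs
      · push_cast
        have : (0 : ℤ) ≤ K * Q := by positivity
        linarith
      · linarith
    have h3 : ((4 * (kap Q R0 + 7) + 16 : ℕ) : ℤ) * o ≤ 4 * (K * Q) := by
      have h4 : ((4 * (kap Q R0 + 7) + 16 : ℕ) : ℤ) ≤ 4 * K := by
        rw [hKdef]
        push_cast
        linarith
      have h5 := mul_le_mul_of_nonneg_right h4 ho0
      linarith
    have h0 : (0 : ℤ) ≤ K * Q := by positivity
    push_cast at h1 h3 ⊢
    linarith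

/-- THE ENTRY. If all the classes `Gm P` are games then the theorem on the numbers is true. -/
theorem E_start (hgame : ∀ P : Par, Game P.W P.nl (Gm P)) :
    ∀ den : ℕ, ∃ Q₀ : ℕ, ∀ Q, Q₀ ≤ Q → ∀ W nl o μ c f : ℕ, o ≤ Q → c ≤ Q → W ≤ o →
    W - μ ≤ c → f ≤ W - μ → f ≤ nl →
    den * (3 * f + 1 * (W - μ)) + Q ≤ den * (2 * (c - (W - μ))) →
    (den : ℤ) * (2 * (2 * ((o : ℤ) * W) + 4 * (f : ℤ) ^ 2 +
      2 * ((((W - μ : ℕ) : ℤ) - f) * (c - (W - μ : ℕ)))) + 1 * (((W - μ : ℕ) : ℤ) - f) ^ 2) +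
      (Q : ℤ) ^ 2 ≤ den * (2 * (o : ℤ) ^ 2) →
    (den : ℤ) * (2 * (2 * ((o : ℤ) * W)) + (11 * (f : ℤ) ^ 2 + 2 * (3 * (f * (((W - μ : ℕ) : ℤ) - f))) +
      2 * (((W - μ : ℕ) : ℤ) - f) ^ 2)) + (Q : ℤ) ^ 2 ≤ den * (2 * (o : ℤ) ^ 2) →
    ∃ G : St → Prop, Game W nl G ∧ G ⟨o, 0, 0, 0, μ, 1, 0, Multiset.replicate c 0⟩ := by
  intro den
  rcases Nat.eq_zero_or_pos den with hd0 | hd
  · refine ⟨1, fun Q hQ W nl o μ c f _ _ _ _ _ _ _ _ hH => ?_⟩
    exfalso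
    rw [hd0] at hH
    have : (1 : ℤ) ≤ Q := by exact_mod_cast hQ
    simp only [Nat.cast_zero, zero_mul, zero_add] at hH
    nlinarith
  · refine ⟨10000 * den * (10000 * den + 12), fun Q hQ W nl o μ c f ho hc hWo hDc hfD hfn hl hV hH => ?_⟩
    obtain ⟨D, hD⟩ : ∃ D, D = W - μ := ⟨_, rfl⟩
    rw [← hD] at hDc hfD hl hV hH
    obtain ⟨n, rfl⟩ : ∃ n, c = D + n := ⟨c - D, by omega⟩
    rcases Nat.eq_zero_or_pos D with h0 | h1
    · have hf0 : f = 0 := by omega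
      subst hf0
      refine ⟨ZS W Q (10000 * den) 0, ZS.game (by omega) (Nat.zero_le _), ?_⟩
      refine E_ZS (den := den) hd rfl hQ ho (by omega) ?_
      rw [h0] at hH
      simpa using hH
    · have hK := E_K hd (rfl : 10000 * den = 10000 * den) hQ
      refine ⟨Gm (EP W nl f Q (10000 * den) (by omega) hK.2.1),
        hgame (EP W nl f Q (10000 * den) (by omega) hK.2.1), ?_⟩
      left
      refine ⟨EV W D n, E_CL hd rfl hQ _ _ ho hc hWo (by omega) h1 hfD hfn ?_ ?_ ?_⟩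
      · rw [one_mul, Nat.add_sub_cancel_left] at hl
        exact hl
      · push_cast at hV ⊢
        rw [one_mul] at hV
        have e : ((D : ℤ) + n - D) = n := by ring
        rw [e] at hV
        exact hV
      · exact hH

end Pool.Agent.OCN.YC
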