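import Pool.Agent.Lib_helper87.OCN.YcJE
import Pool.Agent.Lib_helper16.OCN.End3

/-!
# MP_aeb124_co: `NumThm` from the game of the numbers
-/

set_option autoImplicit false

namespace Pool.Agent.OCN

/-- the theorem on the numbers -/
theorem numThm_of_game (hgame : ∀ P : YC.Par, YC.Game P.W P.nl (YC.Gm P)) {p : XPar}
    (hL : p.L = 2) (hJ : p.J = 1) (hA : p.A = 3) (hB : p.B = 1) (hA' : p.A' = 2) (ha : p.a = 11)
    (hb : p.b = 3) (hc : p.c = 2) : NumThm p := by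
  intro den
  obtain ⟨Q₀, hQ₀⟩ := YC.E_start hgame den
  refine ⟨Q₀, fun Q hQ W nl o μ c f ho hcQ hWo hDc hfD hfn hl hV hH => ?_⟩
  rw [hA, hB, hA'] at hl
  rw [hL, hJ] at hV
  rw [hL, ha, hb, hc] at hH
  refine hQ₀ Q hQ W nl o μ c f ho hcQ hWo hDc hfD hfn hl ?_ ?_
  · exact_mod_cast hV
  · exact_mod_cast hH

end Pool.Agent.OCN
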